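import Mathlib
import Pool.Agent.TH407.AR.Defs
set_option autoImplicit false

/-!
# Densities on the unit sphere of `ℝ³` of bounded variation along the meridians

Definitions and the statements of the intermediate results. The cap of the sphere is written as
`x' = ε x`, `x₃ = √(1 - ε² |x|²) = 1 - ε² ps ε |x|²`, with a scale `ε > 0`.
-/

namespace Pool.Agent.TH407.MV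

open MeasureTheory Set Complex
open scoped ENNReal NNReal Real ComplexConjugate

/-- `(1 - √(1 - ε² s)) / ε²` -/
noncomputable def ps (ε s : ℝ) : ℝ := s / (1 + √(1 - ε ^ 2 * s))

/-- the square of the gnomonic radius -/
noncomputable def gn (ε s : ℝ) : ℝ := s / (1 - ε ^ 2 * s)

/-- a smooth cut-off: `1` on `[1/4, 1]`, `0` off `[1/8, 2]` -/
noncomputable def eta (s : ℝ) : ℝ :=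
  Real.smoothTransition (8 * s - 1) * Real.smoothTransition (2 - s)

/-- a smooth cut-off: `1` on `[-1, 1]`, `0` off `[-2, 2]` -/
noncomputable def chi (s : ℝ) : ℝ :=
  Real.smoothTransition (2 + s) * Real.smoothTransition (2 - s)

/-- the radial profile -/
noncomputable def pro (ε : ℝ) (x : ℝ × ℝ) : ℝ :=
  if ε ^ 2 * AR.sq x < 1 then eta (gn ε (AR.sq x)) else 0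

/-- `EP ε f X t = ∫ exp(-i (x·X + ps ε |x|² t)) f(x) dx` -/
noncomputable def EP (ε : ℝ) (f : ℝ × ℝ → ℂ) (X : ℝ × ℝ) (t : ℝ) : ℂ :=
  ∫ x : ℝ × ℝ, cexp (-(I * ((x.1 * X.1 + x.2 * X.2 + ps ε (AR.sq x) * t : ℝ) : ℂ))) * f x

/-- a function of the angle, cut off to a shell -/
noncomputable def bgp (ε : ℝ) (g : ℝ → ℂ) (x : ℝ × ℝ) : ℂ := (pro ε x : ℂ) * g (AR.ang x)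

/-- `a (height, angle)`, cut off to a shell -/
noncomputable def fap (ε : ℝ) (a : ℝ → ℝ → ℂ) (x : ℝ × ℝ) : ℂ :=
  (pro ε x : ℂ) * a (ps ε (AR.sq x)) (AR.ang x)

/-- the phase function `(√(1 + ε² y²) - 1) / ε²` -/
noncomputable def ph (ε y : ℝ) : ℝ := y ^ 2 / (1 + √(1 + ε ^ 2 * y ^ 2))

/-- `(1 + δ² τ²)^(-1/2)` -/
noncomputable def cd (δ τ : ℝ) : ℝ := (√(1 + δ ^ 2 * τ ^ 2))⁻¹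

/-- `ω·y` in projective coordinates -/
noncomputable def wv (δ : ℝ) (y : ℝ × ℝ) (τ : ℝ) : ℝ := cd δ τ * (y.1 + τ * y.2)

/-- `ω_θ · y` -/
noncomputable def dt (y : ℝ × ℝ) (θ : ℝ) : ℝ := y.1 * Real.cos θ + y.2 * Real.sin θ

/-- `A` is `C²`, and `A`, `A'`, `A''` are bounded by `1` -/
def AC (A : ℝ → ℂ) : Prop :=
  ∃ A1 A2 : ℝ → ℂ, Continuous A2 ∧ (∀ y, HasDerivAt A (A1 y) y) ∧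
    (∀ y, HasDerivAt A1 (A2 y) y) ∧ ∀ y, ‖A y‖ ≤ 1 ∧ ‖A1 y‖ ≤ 1 ∧ ‖A2 y‖ ≤ 1

/-- distance of the symmetric functions -/
noncomputable def dS (x1 x2 x3 x4 : ℝ) : ℝ := |x1 + x2 - x3 - x4| + |x1 * x2 - x3 * x4|

/-- the radial kernel, in the gnomonic radius -/
noncomputable def KG (ε t w : ℝ) : ℂ :=
  ∫ r in Ioi (0 : ℝ), ((r * eta (r ^ 2) / (1 + ε ^ 2 * r ^ 2) ^ 2 : ℝ) : ℂ) *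
    cexp (-(I * ((r * w / √(1 + ε ^ 2 * r ^ 2) +
      r ^ 2 / (√(1 + ε ^ 2 * r ^ 2) * (√(1 + ε ^ 2 * r ^ 2) + 1)) * t : ℝ) : ℂ)))

/-- the oscillatory integral operator in projective coordinates -/
noncomputable def TT (A : ℝ → ℂ) (δ ε t : ℝ) (G : ℝ → ℂ) (y : ℝ × ℝ) : ℂ :=
  ∫ x : ℝ, cexp (I * ((t * ph ε (wv δ y x) : ℝ) : ℂ)) * (A (wv δ y x) * G x)

/-- J1: non-stationary phase, two integrations by parts -/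
def NonStat : Prop :=
  ∃ C : ℝ, 0 < C ∧ ∀ (α β m L N t : ℝ) (Q Q1 Q2 Q3 : ℝ → ℝ) (A A1 A2 : ℝ → ℂ),
    α ≤ β → 0 < m → 1 ≤ L → 0 ≤ N → 0 < t →
    (∀ x, HasDerivAt Q (Q1 x) x) → (∀ x, HasDerivAt Q1 (Q2 x) x) →
    (∀ x, HasDerivAt Q2 (Q3 x) x) → Continuous Q3 →
    (∀ x, HasDerivAt A (A1 x) x) → (∀ x, HasDerivAt A1 (A2 x) x) → Continuous A2 →
    (∀ x, x ∉ Icc α β → A x = 0) →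
    (∀ x ∈ Icc α β, m ≤ |Q1 x| ∧ |Q2 x| ≤ L * m ∧ |Q3 x| ≤ L * m ∧
      ‖A x‖ ≤ N ∧ ‖A1 x‖ ≤ N ∧ ‖A2 x‖ ≤ N) →
    ‖∫ x, cexp (I * ((t * Q x : ℝ) : ℂ)) * A x‖ ≤ C * L ^ 2 * N * (β - α) / (t * m) ^ 2

/-- J2: symmetric sums -/
def SumLem : Prop :=
  ∀ (r N : ℝ) (f f1 f2 : ℝ → ℝ), 0 < r → r ≤ 1 → 0 ≤ N →
    (∀ x ∈ Icc (-(3 * r)) (3 * r), HasDerivAt f (f1 x) x ∧ HasDerivAt f1 (f2 x) x ∧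
      |f1 x| ≤ N ∧ |f2 x| ≤ N) →
    ∀ x1 x2 x3 x4 : ℝ, |x1| ≤ r → |x2| ≤ r → |x3| ≤ r → |x4| ≤ r →
      |f x1 + f x2 - f x3 - f x4| ≤ 4 * N * dS x1 x2 x3 x4

/-- J3: the kernel bound near a point -/
def LocK : Prop :=
  ∀ a0 b0 δ0 ε0 : ℝ, a0 ≠ 0 → (b0 ≠ 0 ∨ δ0 ≠ 0) → ∃ r C : ℝ, 0 < r ∧ r ≤ 1 ∧ 0 < C ∧
    ∀ δ ε t : ℝ, |δ - δ0| ≤ r → |ε - ε0| ≤ r → 1 ≤ t → ∀ A : ℝ → ℂ, AC A →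
      ∀ x1 x2 x3 x4 : ℝ, |x1| ≤ r → |x2| ≤ r → |x3| ≤ r → |x4| ≤ r →
      ‖∫ y : ℝ × ℝ, ((chi ((y.1 - a0) / r) * chi ((y.2 - b0) / r) : ℝ) : ℂ) *
        (A (wv δ y x1) * A (wv δ y x2) * conj (A (wv δ y x3)) * conj (A (wv δ y x4))) *
        cexp (I * ((t * (ph ε (wv δ y x1) + ph ε (wv δ y x2) - ph ε (wv δ y x3) -
          ph ε (wv δ y x4)) : ℝ) : ℂ))‖ ≤ C / (1 + t * dS x1 x2 x3 x4) ^ 2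

/-- J4: the positive kernel -/
def Schur : Prop :=
  ∃ C : ℝ≥0, ∀ (t : ℝ) (g : ℝ → ℝ≥0∞) (B : ℝ≥0), 1 ≤ t → Measurable g →
    (∀ x, x ∉ Icc (-1 : ℝ) 1 → g x = 0) → (∀ x, g x ≤ B) →
    ∫⁻ x1, ∫⁻ x2, ∫⁻ x3, ∫⁻ x4, g x1 * g x2 * g x3 * g x4 *
      ENNReal.ofReal (1 / (1 + t * dS x1 x2 x3 x4) ^ 2) ≤
      C * ENNReal.ofReal ((1 + Real.log t) ^ 2 / t ^ 2) * B ^ 2 * ∫⁻ x, g x ^ 2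

/-- J5: the local `L⁴` bound near a point -/
def LocL4 : Prop :=
  ∀ a0 b0 δ0 ε0 : ℝ, a0 ≠ 0 → (b0 ≠ 0 ∨ δ0 ≠ 0) → ∃ (r : ℝ) (C : ℝ≥0), 0 < r ∧ r ≤ 1 ∧
    ∀ δ ε t : ℝ, |δ - δ0| ≤ r → |ε - ε0| ≤ r → 1 ≤ t → ∀ A : ℝ → ℂ, AC A →
      ∀ (G : ℝ → ℂ) (B : ℝ≥0), Measurable G → (∀ x, r < |x| → G x = 0) → (∀ x, ‖G x‖ₑ ≤ B) →
      ∫⁻ y in {y : ℝ × ℝ | |y.1 - a0| ≤ r ∧ |y.2 - b0| ≤ r}, ‖TT A δ ε t G y‖ₑ ^ 4 ≤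
        C * ENNReal.ofReal ((1 + Real.log t) ^ 2 / t ^ 2) * B ^ 2 * ∫⁻ x, ‖G x‖ₑ ^ 2

/-- J6: the `L⁴` bound on compact sets of parameters -/
def CompL4 : Prop :=
  ∀ Y1 Y2 b1 c0 A0 : ℝ, 0 < Y1 → 0 < c0 → ∃ (r : ℝ) (C : ℝ≥0), 0 < r ∧ r ≤ 1 ∧
    ∀ δ ε t : ℝ, 0 ≤ δ → δ ≤ 1 → 0 ≤ ε → ε ≤ A0 → 1 ≤ t → ∀ A : ℝ → ℂ, AC A →
      ∀ (G : ℝ → ℂ) (B : ℝ≥0), Measurable G → (∀ x, r < |x| → G x = 0) → (∀ x, ‖G x‖ₑ ≤ B) →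
      ∫⁻ y in {y : ℝ × ℝ | Y1 ≤ y.1 ∧ y.1 ≤ Y2 ∧ |y.2| ≤ b1 ∧ c0 ≤ y.2 ^ 2 + δ ^ 2},
        ‖TT A δ ε t G y‖ₑ ^ 4 ≤
        C * ENNReal.ofReal ((1 + Real.log t) ^ 2 / t ^ 2) * B ^ 2 * ∫⁻ x, ‖G x‖ₑ ^ 2

/-- J7: the planar `L⁴` bound with amplitude -/
def MainL4 : Prop :=
  ∀ Y1 Y2 A0 : ℝ, 0 < Y1 → ∃ C : ℝ≥0, ∀ ε t : ℝ, 0 ≤ ε → ε ≤ A0 → 1 ≤ t →
    ∀ A : ℝ → ℂ, AC A → (∀ y, y ∉ Icc Y1 Y2 → A y = 0) →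
      ∀ (g : ℝ → ℂ) (B : ℝ≥0), Measurable g → (∀ θ, ‖g θ‖ₑ ≤ B) →
      ∫⁻ y : ℝ × ℝ, ‖∫ θ in Ioo (-π) π, cexp (I * ((t * ph ε (dt y θ) : ℝ) : ℂ)) *
        (A (dt y θ) * g θ)‖ₑ ^ 4 ≤
        C * ENNReal.ofReal ((1 + Real.log t) ^ 2 / t ^ 2) * B ^ 2 *
          ∫⁻ θ in Ioo (-π) π, ‖g θ‖ₑ ^ 2

/-- J8: stationary phase for the radial kernel -/
def Stat : Prop :=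
  ∀ A0 : ℝ, 0 < A0 → ∃ Y1 Y2 C : ℝ, 0 < Y1 ∧ 0 < C ∧ ∀ ε t : ℝ, 0 ≤ ε → ε ≤ A0 → 1 ≤ t →
    ∃ A : ℝ → ℂ, AC A ∧ (∀ y, y ∉ Icc Y1 Y2 → A y = 0) ∧
      ∀ y, ‖KG ε t (-(t * y)) - ((C * t ^ (-(1 / 2) : ℝ) : ℝ) : ℂ) *
        (cexp (I * ((t * ph ε y : ℝ) : ℂ)) * A y)‖ ≤ C / (t ^ 2 * (1 + |y|) ^ 2)

/-- J9: the tail -/
def TailL4 : Prop :=
  ∃ C : ℝ≥0, ∀ R : ℝ → ℂ, Measurable R → (∀ y, ‖R y‖ ≤ 1 / (1 + |y|) ^ 2) →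
    ∀ (g : ℝ → ℂ) (B : ℝ≥0), Measurable g → (∀ θ, ‖g θ‖ₑ ≤ B) →
      ∫⁻ y : ℝ × ℝ, ‖∫ θ in Ioo (-π) π, R (dt y θ) * g θ‖ₑ ^ 4 ≤
        C * B ^ 2 * ∫⁻ θ in Ioo (-π) π, ‖g θ‖ₑ ^ 2

/-- J10: polar coordinates and the gnomonic radius -/
def Repr : Prop :=
  ∀ (ε : ℝ) (g : ℝ → ℂ) (X : ℝ × ℝ) (t : ℝ), 0 ≤ ε → Measurable g → (∃ B : ℝ, ∀ θ, ‖g θ‖ ≤ B) →
    EP ε (bgp ε g) X t = ∫ θ in Ioo (-π) π, KG ε t (dt X θ) * g θ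

/-- J11: `L²` and `L¹` bounds -/
def FaP : Prop :=
  ∀ A0 : ℝ, ∃ C : ℝ≥0, ∀ ε : ℝ, 0 ≤ ε → ε ≤ A0 →
    ∀ b : ℝ → ℝ → ℂ, Measurable (Function.uncurry b) →
    ∫⁻ s : ℝ, ∫⁻ θ in Ioo (-π) π, ‖b s θ‖ₑ ^ 2 ≠ ∞ →
    Integrable (fap ε b) ∧ MemLp (fap ε b) 2 ∧
    (∀ t, ∫⁻ X : ℝ × ℝ, ‖EP ε (fap ε b) X t‖ₑ ^ 2 ≤
      C * ∫⁻ s : ℝ, ∫⁻ θ in Ioo (-π) π, ‖b s θ‖ₑ ^ 2) ∧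
    (∀ X t, ‖EP ε (fap ε b) X t‖ₑ ^ 2 ≤ C * ∫⁻ s : ℝ, ∫⁻ θ in Ioo (-π) π, ‖b s θ‖ₑ ^ 2)

/-- J12: fixed time `L⁴` bound -/
def AllP : Prop :=
  ∀ A0 δ : ℝ, 0 < δ → δ ≤ 1 / 2 → ∃ C : ℝ≥0, ∀ ε : ℝ, 0 ≤ ε → ε ≤ A0 →
    ∀ (g : ℝ → ℂ) (B : ℝ≥0), Measurable g → (∀ θ, ‖g θ‖ₑ ≤ B) → ∀ t : ℝ,
    ∫⁻ X : ℝ × ℝ, ‖EP ε (bgp ε g) X t‖ₑ ^ 4 ≤
      C * ENNReal.ofReal ((1 + |t|) ^ (-2 + δ)) * B ^ 2 * ∫⁻ θ in Ioo (-π) π, ‖g θ‖ₑ ^ 2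

/-- J13: fixed time `L⁴` bound for the low frequency part -/
def LowP : Prop :=
  ∀ A0 δ : ℝ, 0 < δ → δ ≤ 1 / 2 → ∃ C : ℝ≥0, ∀ ε : ℝ, 0 ≤ ε → ε ≤ A0 →
    ∀ (a : ℝ → ℝ → ℂ) (M : ℝ → ℝ≥0) (B : ℝ≥0), AR.Adm a M →
    (∀ θ, M θ ≤ B) → ∀ T : ℝ, 1 ≤ T → ∀ t : ℝ, T ≤ |t| →
    ∫⁻ X : ℝ × ℝ, ‖EP ε (fap ε (AR.aT a T)) X t‖ₑ ^ 4 ≤
      C * ENNReal.ofReal (T ^ (-2 + δ)) * B ^ 2 * ∫⁻ θ in Ioo (-π) π, (M θ : ℝ≥0∞) ^ 2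

/-- J14: the restricted estimate -/
def RestrP : Prop :=
  ∀ A0 q : ℝ, 3 < q → ∃ C : ℝ≥0, ∀ ε : ℝ, 0 ≤ ε → ε ≤ A0 →
    ∀ (a : ℝ → ℝ → ℂ) (M : ℝ → ℝ≥0) (B : ℝ≥0), AR.Adm a M → (∀ θ, M θ ≤ B) →
    ∫⁻ ξ : (ℝ × ℝ) × ℝ, ‖EP ε (fap ε a) ξ.1 ξ.2‖ₑ ^ q ≤
      C * (B : ℝ≥0∞) ^ (q - 2) * ∫⁻ θ in Ioo (-π) π, (M θ : ℝ≥0∞) ^ 2

/-- J15: the strong estimate -/
def StrongP : Prop :=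
  ∀ A0 q : ℝ, 3 < q → ∃ C : ℝ≥0, ∀ ε : ℝ, 0 ≤ ε → ε ≤ A0 →
    ∀ (a : ℝ → ℝ → ℂ) (M : ℝ → ℝ≥0), AR.Adm a M →
    ∫⁻ ξ : (ℝ × ℝ) × ℝ, ‖EP ε (fap ε a) ξ.1 ξ.2‖ₑ ^ q ≤ C * ∫⁻ θ in Ioo (-π) π, (M θ : ℝ≥0∞) ^ q

/-- the point with gnomonic radius `ρ` and angle `θ` -/
noncomputable def pg (ε ρ θ : ℝ) : ℝ × ℝ := AR.pol (ρ / √(1 + ε ^ 2 * ρ ^ 2)) θ

/-- J16: the shell estimate -/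
def ShellP : Prop :=
  ∀ A0 q : ℝ, 3 < q → ∃ C : ℝ≥0, ∀ ε : ℝ, 0 ≤ ε → ε ≤ A0 →
    ∀ (f : ℝ × ℝ → ℂ) (M : ℝ → ℝ≥0), Measurable f → Measurable M →
    (∀ x, ¬ (ε ^ 2 * AR.sq x < 1 ∧ 1 / 4 < gn ε (AR.sq x) ∧ gn ε (AR.sq x) ≤ 1) → f x = 0) →
    (∀ θ ∈ Ioo (-π) π, ∀ ρ ∈ Ioc (1 / 2 : ℝ) 1, ‖f (pg ε ρ θ)‖ₑ ≤ M θ) →
    (∀ θ ∈ Ioo (-π) π, eVariationOn (fun ρ => f (pg ε ρ θ)) (Ioc (1 / 2) 1) ≤ M θ) →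
    ∫⁻ ξ : (ℝ × ℝ) × ℝ, ‖EP ε f ξ.1 ξ.2‖ₑ ^ q ≤ C * ∫⁻ θ in Ioo (-π) π, (M θ : ℝ≥0∞) ^ q

end Pool.Agent.TH407.MV
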