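import Mathlib
import Pool.Agent.TH407.MV.Defs
import Pool.Agent.TH407.AR.M2
set_option autoImplicit false

/-! The gnomonic change of variables. -/

namespace Pool.Agent.TH407.MV

open MeasureTheory Set Complex
open scoped ENNReal NNReal Real

/-- one-dimensional change of variables -/
noncomputable def kr (ε r : ℝ) : ℝ := r / √(1 + ε ^ 2 * r ^ 2)

lemma nn_pos (ε r : ℝ) : 0 < 1 + ε ^ 2 * r ^ 2 := by positivity

lemma kr_deriv (ε r : ℝ) :
    HasDerivAt (kr ε) ((1 + ε ^ 2 * r ^ 2) ^ (-(3 / 2) : ℝ)) r := by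
  have h0 := nn_pos ε r
  have h1 : HasDerivAt (fun r : ℝ => 1 + ε ^ 2 * r ^ 2) (ε ^ 2 * (2 * r)) r := by
    have := ((hasDerivAt_pow 2 r).const_mul (ε ^ 2)).const_add 1
    simpa using this
  have h2 := h1.sqrt h0.ne'
  have h3 := (hasDerivAt_id r).div h2 (Real.sqrt_pos.2 h0).ne'
  have e : (1 + ε ^ 2 * r ^ 2) ^ (-(3 / 2) : ℝ) =
      (1 * √(1 + ε ^ 2 * r ^ 2) - id r * (ε ^ 2 * (2 * r) / (2 * √(1 + ε ^ 2 * r ^ 2)))) /
        √(1 + ε ^ 2 * r ^ 2) ^ 2 := by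
    set s := √(1 + ε ^ 2 * r ^ 2) with hs
    have hs0 : 0 < s := Real.sqrt_pos.2 h0
    have hs2 : s ^ 2 = 1 + ε ^ 2 * r ^ 2 := Real.sq_sqrt h0.le
    have e1 : (1 + ε ^ 2 * r ^ 2) ^ (-(3 / 2) : ℝ) = (s ^ 3)⁻¹ := by
      rw [← hs2, ← Real.rpow_natCast s 2, ← Real.rpow_mul hs0.le, ← Real.rpow_natCast s 3,
        ← Real.rpow_neg hs0.le]
      congr 1
      norm_num
    rw [e1]
    simp only [id]
    field_simp
    nlinarith [hs2]
  rw [e]
  exact h3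

lemma kr_sq (ε r : ℝ) : 1 - ε ^ 2 * kr ε r ^ 2 = (1 + ε ^ 2 * r ^ 2)⁻¹ := by
  unfold kr
  have h0 := nn_pos ε r
  rw [div_pow, Real.sq_sqrt h0.le]
  field_simp
  ring

lemma kr_inj (ε : ℝ) : InjOn (kr ε) (Ioi 0) := by
  intro a ha b hb hab
  have h1 := kr_sq ε a
  have h2 := kr_sq ε b
  rw [hab, h2] at h1
  have h3 : 1 + ε ^ 2 * b ^ 2 = 1 + ε ^ 2 * a ^ 2 := inv_injective h1
  unfold kr at hab
  rw [h3] at hab
  have h4 := Real.sqrt_pos.2 (nn_pos ε a)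
  exact (div_left_inj' h4.ne').1 hab

lemma kr_image (ε : ℝ) : kr ε '' Ioi 0 = {R : ℝ | 0 < R ∧ ε ^ 2 * R ^ 2 < 1} := by
  ext R
  constructor
  · rintro ⟨r, hr, rfl⟩
    have h0 := nn_pos ε r
    refine ⟨div_pos hr (Real.sqrt_pos.2 h0), ?_⟩
    have h1 := kr_sq ε r
    have h2 : 0 < (1 + ε ^ 2 * r ^ 2)⁻¹ := inv_pos.2 h0
    linarith
  · rintro ⟨h1, h2⟩
    have h3 : 0 < 1 - ε ^ 2 * R ^ 2 := by linarith
    refine ⟨R / √(1 - ε ^ 2 * R ^ 2), div_pos h1 (Real.sqrt_pos.2 h3), ?_⟩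
    unfold kr
    have h4 : 1 + ε ^ 2 * (R / √(1 - ε ^ 2 * R ^ 2)) ^ 2 = (1 - ε ^ 2 * R ^ 2)⁻¹ := by
      rw [div_pow, Real.sq_sqrt h3.le]
      field_simp
      ring
    rw [h4, Real.sqrt_inv, div_div, mul_inv_cancel₀ (Real.sqrt_pos.2 h3).ne', div_one]

lemma meas_disc1 (ε : ℝ) : MeasurableSet {R : ℝ | 0 < R ∧ ε ^ 2 * R ^ 2 < 1} :=
  MeasurableSet.inter (measurableSet_lt measurable_const measurable_id)
    (measurableSet_lt (by fun_prop : Measurable fun R : ℝ => ε ^ 2 * R ^ 2) measurable_const)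

/-- the change of variables in one variable -/
lemma lint_kr (ε : ℝ) (Φ : ℝ → ℝ≥0∞) :
    ∫⁻ R in {R : ℝ | 0 < R ∧ ε ^ 2 * R ^ 2 < 1}, ENNReal.ofReal R * Φ R =
      ∫⁻ r in Ioi (0 : ℝ), ENNReal.ofReal r * (ENNReal.ofReal (((1 + ε ^ 2 * r ^ 2) ^ 2)⁻¹) *
        Φ (kr ε r)) := by
  rw [← kr_image, lintegral_image_eq_lintegral_abs_deriv_mul measurableSet_Ioi
    (fun r _ => (kr_deriv ε r).hasDerivWithinAt) (kr_inj ε)]
  apply setLIntegral_congr_fun measurableSet_Ioi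
  intro r hr
  have hr0 : 0 < r := hr
  have h0 := nn_pos ε r
  simp only
  rw [← mul_assoc, ← mul_assoc, ← ENNReal.ofReal_mul (abs_nonneg _),
    ← ENNReal.ofReal_mul hr0.le]
  congr 2
  rw [abs_of_pos (by positivity)]
  unfold kr
  rw [mul_div_assoc', mul_comm _ r, mul_div_assoc, Real.sqrt_eq_rpow, ← Real.rpow_sub h0,
    ← Real.rpow_natCast (1 + ε ^ 2 * r ^ 2) 2, ← Real.rpow_neg h0.le]
  congr 2
  norm_num

/-- the gnomonic map -/
noncomputable def Gm (ε : ℝ) (u : ℝ × ℝ) : ℝ × ℝ := (√(1 + ε ^ 2 * AR.sq u))⁻¹ • u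

lemma Gm_pol (ε r θ : ℝ) : Gm ε (AR.pol r θ) = AR.pol (kr ε r) θ := by
  unfold Gm kr
  rw [AR.sq_pol, AR.smul_pol, div_eq_inv_mul]

lemma Gm_meas (ε : ℝ) : Measurable (Gm ε) := by
  unfold Gm
  have := AR.sq_meas
  fun_prop

lemma disc_meas (ε : ℝ) : MeasurableSet {x : ℝ × ℝ | ε ^ 2 * AR.sq x < 1} :=
  measurableSet_lt (by have := AR.sq_meas; fun_prop) measurable_const

/-- the change of variables in the plane -/
theorem lint_Gm (ε : ℝ) {F : ℝ × ℝ → ℝ≥0∞} (hF : Measurable F) :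
    ∫⁻ x in {x : ℝ × ℝ | ε ^ 2 * AR.sq x < 1}, F x =
      ∫⁻ u : ℝ × ℝ, ENNReal.ofReal (((1 + ε ^ 2 * AR.sq u) ^ 2)⁻¹) * F (Gm ε u) := by
  have hsq := AR.sq_meas
  have hG := Gm_meas ε
  rw [← lintegral_indicator (disc_meas ε), AR.lint_polar, AR.lint_polar,
    Measure.volume_eq_prod, ← Measure.prod_restrict, lintegral_prod_symm, lintegral_prod_symm]
  · apply lintegral_congr
    intro θ
    have h1 := lint_kr ε (fun R => F (AR.pol R θ))
    have h2 : ∫⁻ r in Ioi (0 : ℝ), ENNReal.ofReal r *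
        {x : ℝ × ℝ | ε ^ 2 * AR.sq x < 1}.indicator F (AR.pol r θ) =
        ∫⁻ R in {R : ℝ | 0 < R ∧ ε ^ 2 * R ^ 2 < 1}, ENNReal.ofReal R * F (AR.pol R θ) := by
      rw [← lintegral_indicator measurableSet_Ioi, ← lintegral_indicator (meas_disc1 ε)]
      apply lintegral_congr
      intro R
      by_cases hR : 0 < R
      · rw [indicator_of_mem (show R ∈ Ioi (0 : ℝ) from hR)]
        by_cases h3 : ε ^ 2 * R ^ 2 < 1
        · rw [indicator_of_mem (show R ∈ {R : ℝ | 0 < R ∧ ε ^ 2 * R ^ 2 < 1} from ⟨hR, h3⟩),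
            indicator_of_mem (show AR.pol R θ ∈ {x : ℝ × ℝ | ε ^ 2 * AR.sq x < 1} by
              show ε ^ 2 * AR.sq (AR.pol R θ) < 1
              rw [AR.sq_pol]; exact h3)]
        · have n1 : R ∉ {R : ℝ | 0 < R ∧ ε ^ 2 * R ^ 2 < 1} := fun h => h3 h.2
          have n2 : AR.pol R θ ∉ {x : ℝ × ℝ | ε ^ 2 * AR.sq x < 1} := by
            intro h
            have h4 : ε ^ 2 * AR.sq (AR.pol R θ) < 1 := h
            rw [AR.sq_pol] at h4
            exact h3 h4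
          rw [indicator_of_notMem n1, indicator_of_notMem n2, mul_zero]
      · have n1 : R ∉ {R : ℝ | 0 < R ∧ ε ^ 2 * R ^ 2 < 1} := fun h => hR h.1
        have n2 : R ∉ Ioi (0 : ℝ) := hR
        rw [indicator_of_notMem n1, indicator_of_notMem n2]
    rw [h2, h1]
    apply lintegral_congr
    intro r
    rw [Gm_pol, AR.sq_pol]
  · have hp : Measurable (fun p : ℝ × ℝ => AR.pol p.1 p.2) := by unfold AR.pol; fun_prop
    exact (Measurable.mul (by fun_prop) (by fun_prop)).aemeasurable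
  · have hp : Measurable (fun p : ℝ × ℝ => AR.pol p.1 p.2) := by unfold AR.pol; fun_prop
    exact (Measurable.mul (by fun_prop)
      ((hF.indicator (disc_meas ε)).comp hp)).aemeasurable

/-- the density of the gnomonic map -/
noncomputable def gd (ε : ℝ) (u : ℝ × ℝ) : ℝ≥0 := Real.toNNReal (((1 + ε ^ 2 * AR.sq u) ^ 2)⁻¹)

lemma gd_meas (ε : ℝ) : Measurable (gd ε) := by
  unfold gd
  have := AR.sq_meas
  fun_prop

lemma sq_nonneg' (x : ℝ × ℝ) : 0 ≤ AR.sq x := by unfold AR.sq; positivity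

lemma gd_coe (ε : ℝ) (u : ℝ × ℝ) : ((gd ε u : ℝ≥0) : ℝ) = ((1 + ε ^ 2 * AR.sq u) ^ 2)⁻¹ := by
  unfold gd
  rw [Real.coe_toNNReal]
  positivity

theorem map_Gm (ε : ℝ) :
    Measure.map (Gm ε) ((volume : Measure (ℝ × ℝ)).withDensity (fun u => (gd ε u : ℝ≥0∞))) =
      (volume : Measure (ℝ × ℝ)).restrict {x : ℝ × ℝ | ε ^ 2 * AR.sq x < 1} := by
  ext s hs
  rw [Measure.map_apply (Gm_meas ε) hs, withDensity_apply _ (Gm_meas ε hs),
    Measure.restrict_apply hs, ← lintegral_indicator (Gm_meas ε hs)]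
  have h1 := lint_Gm ε (F := s.indicator 1) (measurable_one.indicator hs)
  have h2 : ∫⁻ x in {x : ℝ × ℝ | ε ^ 2 * AR.sq x < 1}, s.indicator (1 : ℝ × ℝ → ℝ≥0∞) x =
      volume (s ∩ {x : ℝ × ℝ | ε ^ 2 * AR.sq x < 1}) := by
    rw [lintegral_indicator_one hs, Measure.restrict_apply hs]
  rw [← h2, h1]
  apply lintegral_congr
  intro u
  by_cases h : Gm ε u ∈ s
  · rw [indicator_of_mem (show u ∈ Gm ε ⁻¹' s from h), indicator_of_mem h, Pi.one_apply, mul_one]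
    rfl
  · rw [indicator_of_notMem (show u ∉ Gm ε ⁻¹' s from h), indicator_of_notMem h, mul_zero]

/-- the change of variables for Bochner integrals -/
theorem int_Gm (ε : ℝ) {F : ℝ × ℝ → ℂ} (hF : Measurable F) :
    ∫ x in {x : ℝ × ℝ | ε ^ 2 * AR.sq x < 1}, F x =
      ∫ u : ℝ × ℝ, ((((1 + ε ^ 2 * AR.sq u) ^ 2)⁻¹ : ℝ) : ℂ) * F (Gm ε u) := by
  rw [← map_Gm, integral_map (Gm_meas ε).aemeasurable hF.aestronglyMeasurable,
    integral_withDensity_eq_integral_smul (gd_meas ε)]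
  apply integral_congr_ae
  refine ae_of_all _ fun u => ?_
  simp only
  rw [NNReal.smul_def, gd_coe, Complex.real_smul]

end Pool.Agent.TH407.MV
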