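import Mathlib
import Pool.Agent.TH407.MV.G1
set_option autoImplicit false

/-! The extension operator in gnomonic coordinates. -/

namespace Pool.Agent.TH407.MV

open MeasureTheory Set Complex
open scoped ENNReal NNReal Real

/-- the phase, in gnomonic coordinates -/
noncomputable def pz (ε : ℝ) (u X : ℝ × ℝ) (t : ℝ) : ℝ :=
  (Gm ε u).1 * X.1 + (Gm ε u).2 * X.2 + ps ε (AR.sq (Gm ε u)) * t

/-- the weight, in gnomonic coordinates -/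
noncomputable def wz (ε : ℝ) (u : ℝ × ℝ) : ℝ := ((1 + ε ^ 2 * AR.sq u) ^ 2)⁻¹

/-- the extension operator in gnomonic coordinates -/
noncomputable def EG (ε : ℝ) (f : ℝ × ℝ → ℂ) (X : ℝ × ℝ) (t : ℝ) : ℂ :=
  ∫ u : ℝ × ℝ, (wz ε u : ℂ) * (cexp (-(I * (pz ε u X t : ℂ))) * f u)

lemma ps_meas (ε : ℝ) : Measurable (ps ε) := by
  unfold ps
  fun_prop

lemma wz_meas (ε : ℝ) : Measurable (wz ε) := by
  unfold wz
  have := AR.sq_meas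
  fun_prop

lemma wz_nonneg (ε : ℝ) (u : ℝ × ℝ) : 0 ≤ wz ε u := by unfold wz; positivity

lemma wz_le (ε : ℝ) (u : ℝ × ℝ) : wz ε u ≤ 1 := by
  unfold wz
  have h := sq_nonneg' u
  apply inv_le_one_of_one_le₀
  have : 1 ≤ 1 + ε ^ 2 * AR.sq u := by nlinarith [mul_nonneg (sq_nonneg ε) h]
  nlinarith

lemma pz_meas (ε : ℝ) : Measurable (fun p : ((ℝ × ℝ) × ℝ) × (ℝ × ℝ) => pz ε p.2 p.1.1 p.1.2) := by
  unfold pz
  have h1 := Gm_meas ε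
  have h2 := AR.sq_meas
  have h3 := ps_meas ε
  fun_prop

lemma norm_phase (x : ℝ) : ‖cexp (-(I * (x : ℂ)))‖ₑ = 1 := by
  rw [← ofReal_norm, show (-(I * (x : ℂ))) = (((-x : ℝ) : ℂ) * I) by push_cast; ring,
    Complex.norm_exp_ofReal_mul_I, ENNReal.ofReal_one]

lemma EG_meas (ε : ℝ) {f : ℝ × ℝ → ℂ} (hf : Measurable f) :
    Measurable (fun ξ : (ℝ × ℝ) × ℝ => EG ε f ξ.1 ξ.2) := by
  have hp := pz_meas ε
  have hw := wz_meas ε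
  have h : StronglyMeasurable (fun p : ((ℝ × ℝ) × ℝ) × (ℝ × ℝ) =>
      (wz ε p.2 : ℂ) * (cexp (-(I * (pz ε p.2 p.1.1 p.1.2 : ℂ))) * f p.2)) := by
    apply Measurable.stronglyMeasurable
    fun_prop
  exact (h.integral_prod_right' (ν := (volume : Measure (ℝ × ℝ)))).measurable

lemma Gm_smul (ε ρ : ℝ) (v : ℝ × ℝ) : Gm ε (ρ • v) = ρ • Gm (ε * ρ) v := by
  unfold Gm
  rw [AR.sq_smul, smul_comm]
  congr 4
  ring

lemma ps_scale (ε ρ s : ℝ) : ps ε (ρ ^ 2 * s) = ρ ^ 2 * ps (ε * ρ) s := by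
  unfold ps
  rw [mul_div_assoc]
  congr 4
  ring

lemma EG_aff (ε : ℝ) (f : ℝ × ℝ → ℂ) (ρ : ℝ) (hρ : 0 < ρ) (X : ℝ × ℝ) (t : ℝ) :
    ‖EG ε f X t‖ₑ = ENNReal.ofReal (ρ ^ 2) *
      ‖EG (ε * ρ) (fun y => f (ρ • y)) (ρ • X) (ρ ^ 2 * t)‖ₑ := by
  unfold EG
  rw [AR.int_aff _ 0 ρ hρ]
  have h2 : ∀ y : ℝ × ℝ, (wz ε (0 + ρ • y) : ℂ) *
      (cexp (-(I * (pz ε (0 + ρ • y) X t : ℂ))) * f (0 + ρ • y)) =
      (wz (ε * ρ) y : ℂ) * (cexp (-(I * (pz (ε * ρ) y (ρ • X) (ρ ^ 2 * t) : ℂ))) * f (ρ • y)) := by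
    intro y
    rw [zero_add]
    have e1 : wz ε (ρ • y) = wz (ε * ρ) y := by
      unfold wz
      rw [AR.sq_smul]
      congr 3
      ring
    have e2 : pz ε (ρ • y) X t = pz (ε * ρ) y (ρ • X) (ρ ^ 2 * t) := by
      unfold pz
      rw [Gm_smul, AR.sq_smul, ps_scale]
      simp only [Prod.smul_fst, Prod.smul_snd, smul_eq_mul]
      ring
    rw [e1, e2]
  simp_rw [h2]
  rw [enorm_mul]
  congr 1
  rw [← ofReal_norm, Complex.norm_real, Real.norm_eq_abs, abs_of_pos (by positivity)]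

lemma EG_aff_int (ε : ℝ) (f : ℝ × ℝ → ℂ) (hf : Measurable f) (ρ : ℝ) (hρ : 0 < ρ) (q : ℝ)
    (hq : 0 ≤ q) :
    ∫⁻ ξ : (ℝ × ℝ) × ℝ, ‖EG ε f ξ.1 ξ.2‖ₑ ^ q = ENNReal.ofReal (ρ ^ (2 * q - 4)) *
      ∫⁻ ξ : (ℝ × ℝ) × ℝ, ‖EG (ε * ρ) (fun y => f (ρ • y)) ξ.1 ξ.2‖ₑ ^ q := by
  have hF : Measurable (fun y => f (ρ • y)) := by fun_prop
  have m1 : Measurable (fun ξ : (ℝ × ℝ) × ℝ => ‖EG ε f ξ.1 ξ.2‖ₑ ^ q) :=
    (EG_meas ε hf).enorm.pow_const q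
  have m2 : Measurable (fun ξ : (ℝ × ℝ) × ℝ => ‖EG (ε * ρ) (fun y => f (ρ • y)) ξ.1 ξ.2‖ₑ ^ q) :=
    (EG_meas (ε * ρ) hF).enorm.pow_const q
  have E1 := lintegral_prod_symm (μ := (volume : Measure (ℝ × ℝ))) (ν := (volume : Measure ℝ))
    _ m1.aemeasurable
  have E2 := lintegral_prod_symm (μ := (volume : Measure (ℝ × ℝ))) (ν := (volume : Measure ℝ))
    _ m2.aemeasurable
  rw [← Measure.volume_eq_prod] at E1 E2
  rw [E1, E2]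
  clear E1 E2
  have e1 : ∀ t : ℝ, ∫⁻ X : ℝ × ℝ, ‖EG ε f X t‖ₑ ^ q =
      ENNReal.ofReal (ρ ^ (2 * q - 2)) *
        ∫⁻ X : ℝ × ℝ, ‖EG (ε * ρ) (fun y => f (ρ • y)) X (ρ ^ 2 * t)‖ₑ ^ q := by
    intro t
    have h := AR.lint_aff (fun X : ℝ × ℝ => ‖EG (ε * ρ) (fun y => f (ρ • y)) X (ρ ^ 2 * t)‖ₑ ^ q)
      0 ρ hρ
    simp only [add_zero] at h
    have hpt : ∀ X : ℝ × ℝ, ‖EG ε f X t‖ₑ ^ q = ENNReal.ofReal (ρ ^ (2 * q)) *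
        ‖EG (ε * ρ) (fun y => f (ρ • y)) (ρ • X) (ρ ^ 2 * t)‖ₑ ^ q := by
      intro X
      rw [EG_aff ε f ρ hρ X t, ENNReal.mul_rpow_of_nonneg _ _ hq,
        ENNReal.ofReal_rpow_of_nonneg (by positivity) hq, ← Real.rpow_natCast,
        ← Real.rpow_mul hρ.le]
      norm_num
    simp_rw [hpt]
    rw [lintegral_const_mul' _ _ ENNReal.ofReal_ne_top, h, ← mul_assoc,
      ← ENNReal.ofReal_mul (by positivity)]
    congr 2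
    rw [← Real.rpow_natCast, ← Real.rpow_neg hρ.le, ← Real.rpow_add hρ]
    congr 1
  simp_rw [e1]
  rw [lintegral_const_mul' _ _ ENNReal.ofReal_ne_top,
    AR.lint_aff1 (fun t => ∫⁻ X : ℝ × ℝ, ‖EG (ε * ρ) (fun y => f (ρ • y)) X t‖ₑ ^ q) (ρ ^ 2)
      (by positivity), ← mul_assoc, ← ENNReal.ofReal_mul (by positivity)]
  congr 2
  rw [← Real.rpow_natCast, ← Real.rpow_neg hρ.le, ← Real.rpow_add hρ]
  congr 1
  push_cast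
  ring

/-- inverse of the gnomonic map -/
noncomputable def Gi (ε : ℝ) (x : ℝ × ℝ) : ℝ × ℝ := (√(1 - ε ^ 2 * AR.sq x))⁻¹ • x

lemma Gi_meas (ε : ℝ) : Measurable (Gi ε) := by
  unfold Gi
  have := AR.sq_meas
  fun_prop

lemma sq_Gm (ε : ℝ) (u : ℝ × ℝ) : AR.sq (Gm ε u) = AR.sq u / (1 + ε ^ 2 * AR.sq u) := by
  unfold Gm
  have h := sq_nonneg' u
  rw [AR.sq_smul, inv_pow, Real.sq_sqrt (by positivity), inv_mul_eq_div]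

lemma one_sub_Gm (ε : ℝ) (u : ℝ × ℝ) :
    1 - ε ^ 2 * AR.sq (Gm ε u) = (1 + ε ^ 2 * AR.sq u)⁻¹ := by
  rw [sq_Gm]
  have h := sq_nonneg' u
  have h0 : 0 < 1 + ε ^ 2 * AR.sq u := by positivity
  field_simp
  ring

lemma Gm_disc (ε : ℝ) (u : ℝ × ℝ) : ε ^ 2 * AR.sq (Gm ε u) < 1 := by
  have h1 := one_sub_Gm ε u
  have h := sq_nonneg' u
  have h0 : 0 < (1 + ε ^ 2 * AR.sq u)⁻¹ := by positivity
  linarith

lemma Gi_Gm (ε : ℝ) (u : ℝ × ℝ) : Gi ε (Gm ε u) = u := by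
  unfold Gi
  have h := sq_nonneg' u
  have h0 : 0 < 1 + ε ^ 2 * AR.sq u := by positivity
  rw [one_sub_Gm, Real.sqrt_inv, inv_inv]
  unfold Gm
  rw [smul_smul, mul_inv_cancel₀ (Real.sqrt_pos.2 h0).ne', one_smul]

lemma gn_Gm (ε : ℝ) (u : ℝ × ℝ) : gn ε (AR.sq (Gm ε u)) = AR.sq u := by
  unfold gn
  rw [one_sub_Gm, sq_Gm]
  have h := sq_nonneg' u
  have h0 : 0 < 1 + ε ^ 2 * AR.sq u := by positivity
  field_simp

/-- a function in gnomonic coordinates, as a function on the disc -/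
noncomputable def toD (ε : ℝ) (f : ℝ × ℝ → ℂ) (x : ℝ × ℝ) : ℂ :=
  {x : ℝ × ℝ | ε ^ 2 * AR.sq x < 1}.indicator (fun x => f (Gi ε x)) x

lemma toD_meas (ε : ℝ) {f : ℝ × ℝ → ℂ} (hf : Measurable f) : Measurable (toD ε f) :=
  (hf.comp (Gi_meas ε)).indicator (disc_meas ε)

lemma toD_Gm (ε : ℝ) (f : ℝ × ℝ → ℂ) (u : ℝ × ℝ) : toD ε f (Gm ε u) = f u := by
  unfold toD
  rw [indicator_of_mem (show Gm ε u ∈ {x : ℝ × ℝ | ε ^ 2 * AR.sq x < 1} from Gm_disc ε u), Gi_Gm]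

/-- the two operators agree -/
theorem EP_toD (ε : ℝ) {f : ℝ × ℝ → ℂ} (hf : Measurable f) (X : ℝ × ℝ) (t : ℝ) :
    EP ε (toD ε f) X t = EG ε f X t := by
  have h1 : EP ε (toD ε f) X t = ∫ x in {x : ℝ × ℝ | ε ^ 2 * AR.sq x < 1},
      cexp (-(I * ((x.1 * X.1 + x.2 * X.2 + ps ε (AR.sq x) * t : ℝ) : ℂ))) * toD ε f x := by
    unfold EP
    symm
    apply setIntegral_eq_integral_of_forall_compl_eq_zero
    intro x hx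
    unfold toD
    rw [indicator_of_notMem hx, mul_zero]
  have hm : Measurable fun x : ℝ × ℝ =>
      cexp (-(I * ((x.1 * X.1 + x.2 * X.2 + ps ε (AR.sq x) * t : ℝ) : ℂ))) * toD ε f x := by
    have h2 := AR.sq_meas
    have h3 := ps_meas ε
    have h4 := toD_meas ε hf
    fun_prop
  rw [h1, int_Gm ε hm]
  unfold EG
  apply integral_congr_ae
  refine ae_of_all _ fun u => ?_
  simp only
  rw [toD_Gm]
  rfl

/-- the shell estimate in gnomonic coordinates -/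
def ShellG : Prop :=
  ∀ A0 q : ℝ, 3 < q → ∃ C : ℝ≥0, ∀ ε : ℝ, 0 ≤ ε → ε ≤ A0 →
    ∀ (f : ℝ × ℝ → ℂ) (M : ℝ → ℝ≥0), Measurable f → Measurable M →
    (∀ x, ¬ (1 / 4 < AR.sq x ∧ AR.sq x ≤ 1) → f x = 0) →
    (∀ θ ∈ Ioo (-π) π, ∀ r ∈ Ioc (1 / 2 : ℝ) 1, ‖f (AR.pol r θ)‖ₑ ≤ M θ) →
    (∀ θ ∈ Ioo (-π) π, eVariationOn (fun r => f (AR.pol r θ)) (Ioc (1 / 2) 1) ≤ M θ) →
    ∫⁻ ξ : (ℝ × ℝ) × ℝ, ‖EG ε f ξ.1 ξ.2‖ₑ ^ q ≤ C * ∫⁻ θ in Ioo (-π) π, (M θ : ℝ≥0∞) ^ q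

lemma pg_eq (ε ρ θ : ℝ) : pg ε ρ θ = Gm ε (AR.pol ρ θ) := by
  rw [Gm_pol]
  rfl

lemma Gm_Gi (ε : ℝ) {x : ℝ × ℝ} (hx : ε ^ 2 * AR.sq x < 1) : Gm ε (Gi ε x) = x := by
  have h1 : 0 < 1 - ε ^ 2 * AR.sq x := by linarith
  have h2 : 1 + ε ^ 2 * AR.sq (Gi ε x) = (1 - ε ^ 2 * AR.sq x)⁻¹ := by
    unfold Gi
    rw [AR.sq_smul, inv_pow, Real.sq_sqrt h1.le]
    field_simp
    ring
  unfold Gm
  rw [h2, Real.sqrt_inv, inv_inv]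
  unfold Gi
  rw [smul_smul, mul_inv_cancel₀ (Real.sqrt_pos.2 h1).ne', one_smul]

theorem shellG_of (h : ShellP) : ShellG := by
  intro A0 q hq
  obtain ⟨C, hC⟩ := h A0 q hq
  refine ⟨C, ?_⟩
  intro ε hε hεA f M hf hM h0 h1 h2
  have h3 := hC ε hε hεA (toD ε f) M (toD_meas ε hf) hM ?_ ?_ ?_
  · simpa only [EP_toD ε hf] using h3
  · intro x hx
    by_cases hd : ε ^ 2 * AR.sq x < 1
    · rw [← Gm_Gi ε hd, toD_Gm]
      apply h0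
      intro h4
      apply hx
      rw [← gn_Gm ε (Gi ε x), Gm_Gi ε hd] at h4
      exact ⟨hd, h4.1, h4.2⟩
    · unfold toD
      exact indicator_of_notMem (show x ∉ {x : ℝ × ℝ | ε ^ 2 * AR.sq x < 1} from hd) _
  · intro θ hθ ρ hρ
    rw [pg_eq, toD_Gm]
    exact h1 θ hθ ρ hρ
  · intro θ hθ
    simp only [pg_eq, toD_Gm]
    exact h2 θ hθ

end Pool.Agent.TH407.MV
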