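import Mathlib
import Pool.Agent.TH407.MV.G2
import Pool.Agent.TH407.AR.M3
set_option autoImplicit false

/-! Summation over dyadic shells, in gnomonic coordinates. -/

namespace Pool.Agent.TH407.MV

open MeasureTheory Set Complex
open scoped ENNReal NNReal Real
open Pool.Agent.TH407.AR (WJ FJ fj rj WJ_meas WJ_lower WJ_int FJ_meas FJ_pol FJ_pol' smul_pol
  sq_pol rj_pos sum_rj sum_pow fj_meas tsum_fj tsum_fj_le ae_ang)

section

variable {f : ℝ × ℝ → ℂ} {M : ℝ × ℝ → ℝ≥0∞} (q : ℝ)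
variable (hW : ∀ x, AR.sq x ≤ 4 →
  ‖f x‖ₑ + eVariationOn (fun s : ℝ => f (s • x)) (Icc (1 / 4) 1) ≤ M x)

include hW in
lemma pt_bd {ρ r r' θ : ℝ} (hρ0 : 0 < ρ) (hρ1 : ρ ≤ 1) (hr : r ∈ Ioc (1 / 2 : ℝ) 1)
    (hr' : r' ∈ Ioc (1 : ℝ) 2) :
    ‖f (AR.pol (ρ * r) θ)‖ₑ ≤ M (AR.pol (ρ * r') θ) := by
  have h0 : 0 < r' := by linarith [hr'.1]
  have h4 : AR.sq (AR.pol (ρ * r') θ) ≤ 4 := by
    rw [sq_pol]
    have : ρ * r' ≤ 1 * 2 := mul_le_mul hρ1 hr'.2 h0.le one_pos.le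
    have h5 : 0 ≤ ρ * r' := by positivity
    nlinarith
  have h := hW (AR.pol (ρ * r') θ) h4
  have hs : r / r' ∈ Icc (1 / 4 : ℝ) 1 := by
    constructor
    · rw [le_div_iff₀ h0]; linarith [hr.1, hr'.2]
    · rw [div_le_one h0]; linarith [hr.2, hr'.1]
  have h1 : (1 : ℝ) ∈ Icc (1 / 4 : ℝ) 1 := by constructor <;> norm_num
  have h2 := eVariationOn.edist_le (fun s : ℝ => f (s • AR.pol (ρ * r') θ)) hs h1
  have e : (r / r') • AR.pol (ρ * r') θ = AR.pol (ρ * r) θ := by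
    rw [smul_pol]
    congr 1
    field_simp
  simp only [one_smul, e] at h2
  calc ‖f (AR.pol (ρ * r) θ)‖ₑ ≤ ‖f (AR.pol (ρ * r') θ)‖ₑ +
        edist (f (AR.pol (ρ * r) θ)) (f (AR.pol (ρ * r') θ)) := by
        rw [edist_eq_enorm_sub]
        calc ‖f (AR.pol (ρ * r) θ)‖ₑ = ‖f (AR.pol (ρ * r') θ) +
              (f (AR.pol (ρ * r) θ) - f (AR.pol (ρ * r') θ))‖ₑ := by
              congr 1; ring
          _ ≤ _ := enorm_add_le _ _
    _ ≤ _ := (add_le_add le_rfl h2).trans h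

include hW in
lemma var_bd {ρ r' θ : ℝ} (hρ0 : 0 < ρ) (hρ1 : ρ ≤ 1) (hr' : r' ∈ Ioc (1 : ℝ) 2) :
    eVariationOn (fun r => f (AR.pol (ρ * r) θ)) (Ioc (1 / 2) 1) ≤ M (AR.pol (ρ * r') θ) := by
  have h0 : 0 < r' := by linarith [hr'.1]
  have h4 : AR.sq (AR.pol (ρ * r') θ) ≤ 4 := by
    rw [sq_pol]
    have : ρ * r' ≤ 1 * 2 := mul_le_mul hρ1 hr'.2 h0.le one_pos.le
    have h5 : 0 ≤ ρ * r' := by positivity
    nlinarith
  have h := hW (AR.pol (ρ * r') θ) h4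
  have hc := eVariationOn.comp_le_of_monotoneOn (fun s : ℝ => f (s • AR.pol (ρ * r') θ))
    (s := Icc (1 / 4 : ℝ) 1) (t := Ioc (1 / 2 : ℝ) 1) (fun r => r / r')
    (by
      intro a _ b _ hab
      exact div_le_div_of_nonneg_right hab h0.le)
    (by
      intro r hr
      constructor
      · show (1 / 4 : ℝ) ≤ r / r'
        rw [le_div_iff₀ h0]; linarith [hr.1, hr'.2]
      · show r / r' ≤ 1
        rw [div_le_one h0]; linarith [hr.2, hr'.1])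
  have e : ((fun s : ℝ => f (s • AR.pol (ρ * r') θ)) ∘ fun r => r / r') =
      fun r => f (AR.pol (ρ * r) θ) := by
    ext r
    simp only [Function.comp, smul_pol]
    congr 2
    field_simp
  rw [e] at hc
  exact hc.trans (le_add_self.trans h)

include hW in
/-- the shell estimate applied to a piece -/
lemma piece (C : ℝ≥0) (ε : ℝ) (hq : 0 < q)
    (hC : ∀ (f : ℝ × ℝ → ℂ) (M : ℝ → ℝ≥0), Measurable f → Measurable M →
    (∀ x, ¬ (1 / 4 < AR.sq x ∧ AR.sq x ≤ 1) → f x = 0) →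
    (∀ θ ∈ Ioo (-π) π, ∀ r ∈ Ioc (1 / 2 : ℝ) 1, ‖f (AR.pol r θ)‖ₑ ≤ M θ) →
    (∀ θ ∈ Ioo (-π) π, eVariationOn (fun r => f (AR.pol r θ)) (Ioc (1 / 2) 1) ≤ M θ) →
    ∫⁻ ξ : (ℝ × ℝ) × ℝ, ‖EG ε f ξ.1 ξ.2‖ₑ ^ q ≤ C * ∫⁻ θ in Ioo (-π) π, (M θ : ℝ≥0∞) ^ q)
    (hf : Measurable f) (hM : Measurable M) (ρ : ℝ) (hρ : 0 < ρ) (hρ1 : ρ ≤ 1) :
    ∫⁻ ξ : (ℝ × ℝ) × ℝ, ‖EG ε (FJ f M q ρ) ξ.1 ξ.2‖ₑ ^ q ≤
      C * (ENNReal.ofReal (ρ ^ 2)⁻¹ * ∫⁻ X, M X ^ q) := by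
  set N : ℝ → ℝ≥0 := fun θ => (WJ M q ρ θ ^ (1 / q)).toNNReal with hN
  have hNm : Measurable N := ((WJ_meas hM q ρ).pow_const _).ennreal_toNNReal
  have hq1 : 0 < 1 / q := by positivity
  have hNe : ∀ θ, WJ M q ρ θ ≠ ∞ → (N θ : ℝ≥0∞) = WJ M q ρ θ ^ (1 / q) := by
    intro θ h
    rw [hN]
    exact ENNReal.coe_toNNReal (ENNReal.rpow_ne_top_of_nonneg hq1.le h)
  refine (hC (FJ f M q ρ) N (FJ_meas q hf hM ρ) hNm ?_ ?_ ?_).trans ?_
  · intro x hx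
    unfold FJ
    rw [if_neg]
    intro h
    exact hx h.1
  · intro θ hθ r hr
    by_cases hw : WJ M q ρ θ = ∞
    · rw [FJ_pol' q hr hθ hw]
      simp
    · rw [FJ_pol q hr hθ hw, hNe θ hw]
      exact WJ_lower M q ρ θ hq _ (fun r' hr' => pt_bd hW hρ hρ1 hr hr')
  · intro θ hθ
    by_cases hw : WJ M q ρ θ = ∞
    · have : EqOn (fun r => FJ f M q ρ (AR.pol r θ)) (fun _ => 0) (Ioc (1 / 2 : ℝ) 1) :=
        fun r hr => FJ_pol' q hr hθ hw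
      rw [eVariationOn.congr this]
      rw [eVariationOn.constant_on]
      · simp
      · rintro _ ⟨a, _, rfl⟩ _ ⟨b, _, rfl⟩
        rfl
    · have : EqOn (fun r => FJ f M q ρ (AR.pol r θ)) (fun r => f (AR.pol (ρ * r) θ))
          (Ioc (1 / 2 : ℝ) 1) := fun r hr => FJ_pol q hr hθ hw
      rw [eVariationOn.congr this, hNe θ hw]
      exact WJ_lower M q ρ θ hq _ (fun r' hr' => var_bd hW hρ hρ1 hr')
  · refine mul_le_mul' le_rfl (le_trans ?_ (WJ_int hM q ρ hρ))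
    apply lintegral_mono
    intro θ
    show (N θ : ℝ≥0∞) ^ q ≤ WJ M q ρ θ
    by_cases hw : WJ M q ρ θ = ∞
    · rw [hw]; exact le_top
    · rw [hNe θ hw, ← ENNReal.rpow_mul, one_div_mul_cancel hq.ne', ENNReal.rpow_one]

end

lemma rj_le (j : ℕ) : rj j ≤ 1 := by
  unfold rj
  exact pow_le_one₀ (by norm_num) (by norm_num)

lemma abs_sum (k : ℝ × ℝ → ℂ) (hk : Measurable k) (hk1 : ∀ x, ‖k x‖ₑ ≤ 1) (f : ℝ × ℝ → ℂ)
    (F : ℕ → ℝ × ℝ → ℂ) (hm : ∀ j, Measurable (F j)) (hsum : ∀ᵐ x : ℝ × ℝ, f x = ∑' j, F j x)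
    (hle : ∀ x, ∑' j, ‖F j x‖ₑ ≤ ‖f x‖ₑ) (hfint : ∫⁻ x, ‖f x‖ₑ ≠ ∞) :
    ‖∫ x, k x * f x‖ₑ ≤ ∑' j, ‖∫ x, k x * F j x‖ₑ := by
  have e1 : ∫ x, k x * f x = ∫ x : ℝ × ℝ, ∑' j, k x * F j x := by
    apply integral_congr_ae
    filter_upwards [hsum] with x hx
    rw [hx, tsum_mul_left]
  have e2 : ∑' j, ∫⁻ x : ℝ × ℝ, ‖k x * F j x‖ₑ ≠ ∞ := by
    have e3 : ∑' j, ∫⁻ x : ℝ × ℝ, ‖k x * F j x‖ₑ ≤ ∑' j, ∫⁻ x : ℝ × ℝ, ‖F j x‖ₑ := by
      apply ENNReal.tsum_le_tsum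
      intro j
      apply lintegral_mono
      intro x
      simp only
      rw [enorm_mul]
      calc _ ≤ 1 * ‖F j x‖ₑ := mul_le_mul' (hk1 x) le_rfl
        _ = _ := one_mul _
    refine (lt_of_le_of_lt e3 ?_).ne
    rw [← lintegral_tsum (fun j => (hm j).enorm.aemeasurable)]
    exact lt_of_le_of_lt (lintegral_mono hle) (lt_top_iff_ne_top.2 hfint)
  have hmj : ∀ j, AEStronglyMeasurable (fun x : ℝ × ℝ => k x * F j x) volume :=
    fun j => (hk.mul (hm j)).aestronglyMeasurable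
  rw [e1, integral_tsum hmj e2]
  exact enorm_tsum_le_tsum_enorm

lemma pz_meas1 (A0 : ℝ) (X : ℝ × ℝ) (t : ℝ) : Measurable (fun x : ℝ × ℝ => pz A0 x X t) := by
  unfold pz
  have h1 : Measurable (fun x : ℝ × ℝ => Gm A0 x) := Gm_meas A0
  have h2 : Measurable (fun x : ℝ × ℝ => AR.sq (Gm A0 x)) := AR.sq_meas.comp h1
  have h3 : Measurable (fun x : ℝ × ℝ => ps A0 (AR.sq (Gm A0 x))) := (ps_meas A0).comp h2
  exact ((h1.fst.mul_const _).add (h1.snd.mul_const _)).add (h3.mul_const _)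

/-- the kernel of the extension operator -/
noncomputable def kz (A0 : ℝ) (X : ℝ × ℝ) (t : ℝ) (x : ℝ × ℝ) : ℂ :=
  (wz A0 x : ℂ) * cexp (-(I * (pz A0 x X t : ℂ)))

lemma kz_meas (A0 : ℝ) (X : ℝ × ℝ) (t : ℝ) : Measurable (kz A0 X t) := by
  have h1 : Measurable (fun x : ℝ × ℝ => (pz A0 x X t : ℂ)) :=
    Complex.measurable_ofReal.comp (pz_meas1 A0 X t)
  have h2 : Measurable (fun x : ℝ × ℝ => (wz A0 x : ℂ)) :=
    Complex.measurable_ofReal.comp (wz_meas A0)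
  exact h2.mul ((h1.const_mul I).neg.cexp)

lemma kz_le (A0 : ℝ) (X : ℝ × ℝ) (t : ℝ) (x : ℝ × ℝ) : ‖kz A0 X t x‖ₑ ≤ 1 := by
  unfold kz
  rw [enorm_mul, norm_phase, mul_one, ← ofReal_norm, Complex.norm_real, Real.norm_eq_abs,
    abs_of_nonneg (wz_nonneg A0 x), ENNReal.ofReal_le_one]
  exact wz_le A0 x

lemma EG_kz (A0 : ℝ) (g : ℝ × ℝ → ℂ) (X : ℝ × ℝ) (t : ℝ) :
    EG A0 g X t = ∫ x : ℝ × ℝ, kz A0 X t x * g x := by
  unfold EG
  refine integral_congr_ae (ae_of_all _ fun x => ?_)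
  show (wz A0 x : ℂ) * (cexp (-(I * (pz A0 x X t : ℂ))) * g x) = kz A0 X t x * g x
  unfold kz
  rw [mul_assoc]

lemma EG_sum (A0 : ℝ) (X : ℝ × ℝ) (t : ℝ) (f : ℝ × ℝ → ℂ)
    (F : ℕ → ℝ × ℝ → ℂ) (hm : ∀ j, Measurable (F j)) (hsum : ∀ᵐ x : ℝ × ℝ, f x = ∑' j, F j x)
    (hle : ∀ x, ∑' j, ‖F j x‖ₑ ≤ ‖f x‖ₑ) (hfint : ∫⁻ x, ‖f x‖ₑ ≠ ∞) :
    ‖EG A0 f X t‖ₑ ≤ ∑' j, ‖EG A0 (F j) X t‖ₑ := by
  have h := abs_sum (kz A0 X t) (kz_meas A0 X t) (kz_le A0 X t) f F hm hsum hle hfint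
  rw [EG_kz A0 f X t]
  refine h.trans (le_of_eq ?_)
  refine tsum_congr fun j => ?_
  rw [EG_kz A0 (F j) X t]

/-- the estimate for functions supported in the unit disc of the gnomonic plane -/
theorem mainG (hS : ShellG) (A0 q : ℝ) (hA : 0 ≤ A0) (hq : 3 < q) : ∃ C : ℝ≥0,
    ∀ (f : ℝ × ℝ → ℂ)
    (M : ℝ × ℝ → ℝ≥0∞), Measurable f → Measurable M → (∀ x, 1 < AR.sq x → f x = 0) →
    (∀ x, AR.sq x ≤ 4 →
      ‖f x‖ₑ + eVariationOn (fun s : ℝ => f (s • x)) (Icc (1 / 4) 1) ≤ M x) →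
    ∫⁻ ξ : (ℝ × ℝ) × ℝ, ‖EG A0 f ξ.1 ξ.2‖ₑ ^ q ≤ C * ∫⁻ x, M x ^ q := by
  obtain ⟨C, hC⟩ := hS A0 q hq
  have hq0 : 0 < q := by linarith
  have hq1 : 0 < q - 1 := by linarith
  have hq3 : 0 < q - 3 := by linarith
  set ε : ℝ := (q - 3) / (q - 1) with hε
  have hε0 : 0 < ε := by positivity
  set K1 : ℝ≥0∞ := ∑' j, ENNReal.ofReal (rj j ^ ε) with hK1
  set K2 : ℝ≥0∞ := ∑' j, ENNReal.ofReal (rj j ^ (q - 3)) with hK2
  have hK1f : K1 ≠ ∞ := sum_rj ε hε0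
  have hK2f : K2 ≠ ∞ := sum_rj (q - 3) hq3
  have hKf : K1 ^ (q - 1) * (C * K2) ≠ ∞ :=
    ENNReal.mul_ne_top (ENNReal.rpow_ne_top_of_nonneg hq1.le hK1f)
      (ENNReal.mul_ne_top ENNReal.coe_ne_top hK2f)
  refine ⟨max 1 (K1 ^ (q - 1) * (C * K2)).toNNReal, ?_⟩
  intro f M hf hM h0 hW
  set I0 := ∫⁻ x, M x ^ q with hI0
  by_cases hI : I0 = ∞
  · rw [hI, ENNReal.mul_top]
    · exact le_top
    · have : (1 : ℝ≥0) ≤ max 1 (K1 ^ (q - 1) * (C * K2)).toNNReal := le_max_left _ _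
      have h2 : (1 : ℝ≥0∞) ≤ ((max 1 (K1 ^ (q - 1) * (C * K2)).toNNReal : ℝ≥0) : ℝ≥0∞) := by
        exact_mod_cast this
      exact (lt_of_lt_of_le one_pos h2).ne'
  -- integrability of f
  have hfint : ∫⁻ x, ‖f x‖ₑ ≠ ∞ := by
    have hle : ∀ x, ‖f x‖ₑ ≤ {x | AR.sq x ≤ 1}.indicator (fun _ => (1 : ℝ≥0∞)) x + M x ^ q := by
      intro x
      by_cases hx : 1 < AR.sq x
      · rw [h0 x hx]; simp
      · push Not at hx
        rw [indicator_of_mem (show x ∈ {x | AR.sq x ≤ 1} from hx)]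
        have h1 : ‖f x‖ₑ ≤ M x := le_self_add.trans (hW x (by linarith))
        rcases le_total (M x) 1 with h2 | h2
        · exact (h1.trans h2).trans le_self_add
        · refine (h1.trans ?_).trans le_add_self
          calc M x = M x ^ (1 : ℝ) := (ENNReal.rpow_one _).symm
            _ ≤ M x ^ q := ENNReal.rpow_le_rpow_of_exponent_le h2 (by linarith)
    have hdm : MeasurableSet {x : ℝ × ℝ | AR.sq x ≤ 1} :=
      measurableSet_le AR.sq_meas measurable_const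
    have hlt : ∫⁻ x, ‖f x‖ₑ ≤ volume {x : ℝ × ℝ | AR.sq x ≤ 1} + I0 := by
      refine (lintegral_mono hle).trans (le_of_eq ?_)
      rw [lintegral_add_left (measurable_const.indicator hdm), lintegral_indicator hdm]
      simp [hI0]
    have hvol : volume {x : ℝ × ℝ | AR.sq x ≤ 1} < ∞ := by
      have hsub : {x : ℝ × ℝ | AR.sq x ≤ 1} ⊆ Icc ((-1 : ℝ), (-1 : ℝ)) ((1 : ℝ), (1 : ℝ)) := by
        intro x hx
        have hx' : x.1 ^ 2 + x.2 ^ 2 ≤ 1 := hx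
        have a1 := abs_le_of_sq_le_sq' (by nlinarith [sq_nonneg x.2] : x.1 ^ 2 ≤ 1 ^ 2) one_pos.le
        have a2 := abs_le_of_sq_le_sq' (by nlinarith [sq_nonneg x.1] : x.2 ^ 2 ≤ 1 ^ 2) one_pos.le
        exact ⟨⟨a1.1, a2.1⟩, ⟨a1.2, a2.2⟩⟩
      exact lt_of_le_of_lt (measure_mono hsub) isCompact_Icc.measure_lt_top
    exact (lt_of_le_of_lt hlt (ENNReal.add_lt_top.2 ⟨hvol, lt_top_iff_ne_top.2 hI⟩)).ne
  -- almost every angle is good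
  have hgood : ∀ᵐ x : ℝ × ℝ, ∀ j, WJ M q (rj j) (AR.ang x) ≠ ∞ := by
    have hms : ∀ j, MeasurableSet {θ | WJ M q (rj j) θ ≠ ∞} := fun j =>
      (WJ_meas hM q (rj j)) (measurableSet_singleton ∞).compl
    have hP : MeasurableSet {θ | ∀ j, WJ M q (rj j) θ ≠ ∞} := by
      have : {θ | ∀ j, WJ M q (rj j) θ ≠ ∞} = ⋂ j, {θ | WJ M q (rj j) θ ≠ ∞} := by
        ext θ
        simp only [mem_iInter]
        rfl
      rw [this]
      exact MeasurableSet.iInter hms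
    refine ae_ang (P := fun θ => ∀ j, WJ M q (rj j) θ ≠ ∞) hP ?_
    rw [ae_all_iff]
    intro j
    have h1 := WJ_int hM q (rj j) (rj_pos j)
    have h2 : ∫⁻ θ in Ioo (-π) π, WJ M q (rj j) θ ≠ ∞ :=
      (lt_of_le_of_lt h1 (ENNReal.mul_lt_top ENNReal.ofReal_lt_top (lt_top_iff_ne_top.2 hI))).ne
    filter_upwards [ae_lt_top (WJ_meas hM q (rj j)) h2] with θ hθ
    exact hθ.ne
  have hne0 : ∀ᵐ x : ℝ × ℝ, x ≠ 0 := by
    rw [ae_iff]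
    simp
  have hsum : ∀ᵐ x : ℝ × ℝ, f x = ∑' j, fj f M q j x := by
    filter_upwards [hgood, hne0] with x h1 h2
    exact (tsum_fj q h0 h2 h1).symm
  have hm : ∀ j, Measurable (fj f M q j) := fun j => fj_meas q hf hM j
  -- EG f as a sum
  have hEX : ∀ (X : ℝ × ℝ) (t : ℝ), ‖EG A0 f X t‖ₑ ≤ ∑' j, ‖EG A0 (fj f M q j) X t‖ₑ :=
    fun X t => EG_sum A0 X t f (fun j => fj f M q j) hm hsum (fun x => tsum_fj_le q x) hfint
  -- each piece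
  have hpiece : ∀ j, ∫⁻ ξ : (ℝ × ℝ) × ℝ, ‖EG A0 (fj f M q j) ξ.1 ξ.2‖ₑ ^ q ≤
      ENNReal.ofReal (rj j ^ (2 * q - 6)) * (C * I0) := by
    intro j
    have hr := rj_pos j
    rw [EG_aff_int A0 (fj f M q j) (hm j) (rj j) hr q hq0.le]
    have e1 : (fun y => fj f M q j (rj j • y)) = FJ f M q (rj j) := by
      ext y
      unfold fj
      rw [smul_smul, inv_mul_cancel₀ hr.ne', one_smul]
    rw [e1]
    have h1 := piece q hW C (A0 * rj j) hq0 (hC (A0 * rj j) (by positivity)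
      (by nlinarith [rj_le j])) hf hM (rj j) hr (rj_le j)
    calc ENNReal.ofReal (rj j ^ (2 * q - 4)) *
          ∫⁻ ξ : (ℝ × ℝ) × ℝ, ‖EG (A0 * rj j) (FJ f M q (rj j)) ξ.1 ξ.2‖ₑ ^ q
        ≤ ENNReal.ofReal (rj j ^ (2 * q - 4)) * (C * (ENNReal.ofReal (rj j ^ 2)⁻¹ * I0)) :=
          mul_le_mul' le_rfl h1
      _ = (ENNReal.ofReal (rj j ^ (2 * q - 4)) * ENNReal.ofReal (rj j ^ 2)⁻¹) * (C * I0) := by ring
      _ = _ := by
          rw [← ENNReal.ofReal_mul (by positivity)]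
          congr 2
          rw [← Real.rpow_natCast, ← Real.rpow_neg hr.le, ← Real.rpow_add hr]
          congr 1
          push_cast
          ring
  -- summation
  have hw0 : ∀ j, ENNReal.ofReal (rj j ^ ε) ≠ 0 := by
    intro j
    have := rj_pos j
    rw [Ne, ENNReal.ofReal_eq_zero, not_le]
    positivity
  have hpt : ∀ ξ : (ℝ × ℝ) × ℝ, ‖EG A0 f ξ.1 ξ.2‖ₑ ^ q ≤ K1 ^ (q - 1) * ∑' j,
      ENNReal.ofReal (rj j ^ (-(q - 3))) * ‖EG A0 (fj f M q j) ξ.1 ξ.2‖ₑ ^ q := by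
    intro ξ
    refine (ENNReal.rpow_le_rpow (hEX ξ.1 ξ.2) hq0.le).trans ?_
    refine (sum_pow (fun j => ENNReal.ofReal (rj j ^ ε)) _ q (by linarith) hw0
      (fun j => ENNReal.ofReal_ne_top)).trans (le_of_eq ?_)
    congr 1
    apply tsum_congr
    intro j
    congr 1
    have := rj_pos j
    rw [ENNReal.ofReal_rpow_of_pos (by positivity), ← Real.rpow_mul this.le]
    congr 2
    rw [hε]
    field_simp
    ring
  calc ∫⁻ ξ : (ℝ × ℝ) × ℝ, ‖EG A0 f ξ.1 ξ.2‖ₑ ^ q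
      ≤ ∫⁻ ξ : (ℝ × ℝ) × ℝ, K1 ^ (q - 1) * ∑' j,
        ENNReal.ofReal (rj j ^ (-(q - 3))) * ‖EG A0 (fj f M q j) ξ.1 ξ.2‖ₑ ^ q := lintegral_mono hpt
    _ = K1 ^ (q - 1) * ∑' j, ENNReal.ofReal (rj j ^ (-(q - 3))) *
          ∫⁻ ξ : (ℝ × ℝ) × ℝ, ‖EG A0 (fj f M q j) ξ.1 ξ.2‖ₑ ^ q := by
        have hmm : ∀ j, Measurable (fun ξ : (ℝ × ℝ) × ℝ => ‖EG A0 (fj f M q j) ξ.1 ξ.2‖ₑ ^ q) :=
          fun j => (EG_meas A0 (hm j)).enorm.pow_const q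
        rw [lintegral_const_mul' _ _ (ENNReal.rpow_ne_top_of_nonneg hq1.le hK1f),
          lintegral_tsum (fun j => ((hmm j).const_mul _).aemeasurable)]
        congr 1
        apply tsum_congr
        intro j
        rw [lintegral_const_mul _ (hmm j)]
    _ ≤ K1 ^ (q - 1) * ∑' j, ENNReal.ofReal (rj j ^ (-(q - 3))) *
          (ENNReal.ofReal (rj j ^ (2 * q - 6)) * (C * I0)) := by
        gcongr with j
        exact hpiece j
    _ = K1 ^ (q - 1) * (C * K2) * I0 := by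
        have : ∀ j, ENNReal.ofReal (rj j ^ (-(q - 3))) *
          (ENNReal.ofReal (rj j ^ (2 * q - 6)) * (C * I0)) =
            ENNReal.ofReal (rj j ^ (q - 3)) * (C * I0) := by
          intro j
          have hr := rj_pos j
          rw [← mul_assoc, ← ENNReal.ofReal_mul (by positivity), ← Real.rpow_add hr]
          congr 3
          ring
        simp_rw [this]
        rw [ENNReal.tsum_mul_right]
        ring
    _ ≤ _ := by
        refine mul_le_mul' ?_ le_rfl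
        calc K1 ^ (q - 1) * (C * K2) = ((K1 ^ (q - 1) * (C * K2)).toNNReal : ℝ≥0∞) :=
              (ENNReal.coe_toNNReal hKf).symm
          _ ≤ _ := by
              exact_mod_cast le_max_right _ _

end Pool.Agent.TH407.MV
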