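import Mathlib
import Pool.Agent.TH277.CS.D
import Pool.Agent.TH407.MV.G3
set_option autoImplicit false

/-! The northern cap: from the gnomonic plane to the sphere. -/

namespace Pool.Agent.TH407.MV

open MeasureTheory Set Complex Metric
open scoped ENNReal NNReal Real RealInnerProductSpace
open Pool.Agent.TH277.CS (E3 sigma HP HP_meas D0 D0_meas u u_meas u_0 u_1 u_2 W W_pos W_nonneg
  W_meas int_sphere lint_sphere L L_le)

/-- the gnomonic parametrization of the upper half sphere -/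
noncomputable def sph (v : ℝ × ℝ) : sphere (0 : E3) 1 := u (Gm 1 v)

lemma sph_meas : Measurable sph := u_meas.comp (Gm_meas 1)

/-- `√(1+|v|²)` -/
noncomputable def nv (v : ℝ × ℝ) : ℝ := √(1 + AR.sq v)

lemma one_sq_pos (v : ℝ × ℝ) : 0 < 1 + AR.sq v := by
  have := sq_nonneg' v
  linarith

lemma nv_pos (v : ℝ × ℝ) : 0 < nv v := Real.sqrt_pos.2 (one_sq_pos v)

lemma nv_sq (v : ℝ × ℝ) : nv v ^ 2 = 1 + AR.sq v := Real.sq_sqrt (one_sq_pos v).le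

lemma nv_meas : Measurable nv := (measurable_const.add AR.sq_meas).sqrt

lemma Gm1 (v : ℝ × ℝ) : Gm 1 v = (nv v)⁻¹ • v := by
  unfold Gm nv
  rw [one_pow, one_mul]

lemma Gm1_lt (v : ℝ × ℝ) : AR.sq (Gm 1 v) < 1 := by
  have := Gm_disc 1 v
  simpa using this

lemma Gm1_s2 (v : ℝ × ℝ) : Pool.Agent.TH277.CS.s2 (Gm 1 v) < 1 := Gm1_lt v

lemma sqrt_Gm1 (v : ℝ × ℝ) : √(1 - AR.sq (Gm 1 v)) = (nv v)⁻¹ := by
  have h := one_sub_Gm 1 v
  rw [one_pow, one_mul, one_mul] at h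
  rw [h, Real.sqrt_inv]
  rfl

lemma sph_0 (v : ℝ × ℝ) : (sph v : E3) 0 = (nv v)⁻¹ * v.1 := by
  unfold sph
  rw [u_0 (Gm1_s2 v), Gm1]
  rfl

lemma sph_1 (v : ℝ × ℝ) : (sph v : E3) 1 = (nv v)⁻¹ * v.2 := by
  unfold sph
  rw [u_1 (Gm1_s2 v), Gm1]
  rfl

lemma sph_2 (v : ℝ × ℝ) : (sph v : E3) 2 = (nv v)⁻¹ := by
  unfold sph
  rw [u_2 (Gm1_s2 v)]
  exact sqrt_Gm1 v

lemma W_Gm1 (v : ℝ × ℝ) : W (Pool.Agent.TH277.CS.s2 (Gm 1 v)) = nv v := by
  show (√(1 - AR.sq (Gm 1 v)))⁻¹ = nv v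
  rw [sqrt_Gm1, inv_inv]

lemma ps_one {s : ℝ} (hs : s ≤ 1) : ps 1 s = 1 - √(1 - s) := by
  unfold ps
  rw [one_pow, one_mul]
  have h1 : 0 ≤ √(1 - s) := Real.sqrt_nonneg _
  have h2 : √(1 - s) ^ 2 = 1 - s := Real.sq_sqrt (by linarith)
  rw [div_eq_iff (by positivity)]
  nlinarith

/-- the density in gnomonic coordinates -/
noncomputable def FG (f : sphere (0 : E3) 1 → ℂ) (v : ℝ × ℝ) : ℂ := (nv v : ℂ) * f (sph v)

lemma FG_meas {f : sphere (0 : E3) 1 → ℂ} (hf : Measurable f) : Measurable (FG f) :=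
  (Complex.measurable_ofReal.comp nv_meas).mul (hf.comp sph_meas)

lemma D0_eq : D0 = {x : ℝ × ℝ | (1 : ℝ) ^ 2 * AR.sq x < 1} := by
  ext x
  show Pool.Agent.TH277.CS.s2 x < 1 ↔ (1 : ℝ) ^ 2 * AR.sq x < 1
  rw [one_pow, one_mul]
  rfl

lemma ph_sph (ξ : E3) (v : ℝ × ℝ) :
    cexp (-(2 * Real.pi * I * ((⟪(sph v : E3), ξ⟫ : ℝ) : ℂ))) =
      cexp (-(2 * Real.pi * I * (ξ 2 : ℂ))) *
        cexp (-(I * (pz 1 v (L ξ).1 (L ξ).2 : ℂ))) := by
  have h1 : (⟪(sph v : E3), ξ⟫ : ℝ) =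
      (Gm 1 v).1 * ξ 0 + (Gm 1 v).2 * ξ 1 + √(1 - AR.sq (Gm 1 v)) * ξ 2 := by
    rw [PiLp.inner_apply, Fin.sum_univ_three]
    simp only [RCLike.inner_apply, conj_trivial]
    rw [sph_0, sph_1, sph_2, sqrt_Gm1, Gm1]
    simp only [Prod.smul_fst, Prod.smul_snd, smul_eq_mul]
    ring
  rw [h1, ← Complex.exp_add]
  congr 1
  unfold pz L
  rw [ps_one (Gm1_lt v).le]
  push_cast
  ring

/-- the Fourier transform, in gnomonic coordinates -/
lemma ft_EG {f : sphere (0 : E3) 1 → ℂ} (hf : Measurable f) (h0 : ∀ x, x ∉ HP → f x = 0)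
    (ξ : E3) :
    ‖Pool.Agent.TH277.CS.ft f ξ‖ₑ = ‖EG 1 (FG f) (L ξ).1 (L ξ).2‖ₑ := by
  have hmE : Measurable fun x : sphere (0 : E3) 1 =>
      cexp (-(2 * Real.pi * I * ((⟪(x : E3), ξ⟫ : ℝ) : ℂ))) := by
    have h1 : Measurable fun x : sphere (0 : E3) 1 => (⟪(x : E3), ξ⟫ : ℝ) := by
      have h2 : Measurable fun x : E3 => (⟪x, ξ⟫ : ℝ) := by fun_prop
      exact h2.comp measurable_subtype_coe
    exact Complex.measurable_exp.comp
      ((measurable_const.mul (Complex.measurable_ofReal.comp h1)).neg)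
  have hmF : Measurable fun x : sphere (0 : E3) 1 =>
      cexp (-(2 * Real.pi * I * ((⟪(x : E3), ξ⟫ : ℝ) : ℂ))) * f x := hmE.mul hf
  have h1 : Pool.Agent.TH277.CS.ft f ξ = cexp (-(2 * Real.pi * I * (ξ 2 : ℂ))) *
      EG 1 (FG f) (L ξ).1 (L ξ).2 := by
    unfold Pool.Agent.TH277.CS.ft
    rw [int_sphere _ hmF (fun x hx => by simp only [h0 x hx, mul_zero]), D0_eq,
      int_Gm 1]
    · unfold EG
      rw [← integral_const_mul]
      refine integral_congr_ae (ae_of_all _ fun v => ?_)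
      have e1 := ph_sph ξ v
      show ((((1 + (1 : ℝ) ^ 2 * AR.sq v) ^ 2)⁻¹ : ℝ) : ℂ) *
        (((W (Pool.Agent.TH277.CS.s2 (Gm 1 v)) : ℝ) : ℂ) *
          (cexp (-(2 * Real.pi * I * ((⟪(sph v : E3), ξ⟫ : ℝ) : ℂ))) * f (sph v))) = _
      rw [e1, W_Gm1]
      show _ = cexp (-(2 * Real.pi * I * (ξ 2 : ℂ))) * ((((1 + (1 : ℝ) ^ 2 * AR.sq v) ^ 2)⁻¹ : ℝ) *
        (cexp (-(I * (pz 1 v (L ξ).1 (L ξ).2 : ℂ))) * ((nv v : ℂ) * f (sph v))))
      ring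
    · have h2 : Measurable fun y : ℝ × ℝ => ((W (Pool.Agent.TH277.CS.s2 y) : ℝ) : ℂ) :=
        Complex.measurable_ofReal.comp (W_meas.comp Pool.Agent.TH277.CS.s2_meas)
      exact h2.mul (hmF.comp u_meas)
  rw [h1, enorm_mul]
  have h2 : ‖cexp (-(2 * Real.pi * I * (ξ 2 : ℂ)))‖ₑ = 1 := by
    have := norm_phase (2 * Real.pi * ξ 2)
    rw [← this]
    congr 3
    push_cast
    ring
  rw [h2, one_mul]

/-- the surface measure in gnomonic coordinates -/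
lemma lint_sph (G : sphere (0 : E3) 1 → ℝ≥0∞) (hG : Measurable G) :
    ∫⁻ x in HP, G x ∂sigma = ∫⁻ v : ℝ × ℝ, ENNReal.ofReal ((nv v ^ 3)⁻¹) * G (sph v) := by
  rw [lint_sphere G hG, D0_eq, lint_Gm 1]
  · apply lintegral_congr
    intro v
    have h1 := nv_pos v
    show ENNReal.ofReal (((1 + (1 : ℝ) ^ 2 * AR.sq v) ^ 2)⁻¹) *
      (ENNReal.ofReal (W (Pool.Agent.TH277.CS.s2 (Gm 1 v))) * G (sph v)) = _
    rw [W_Gm1, ← mul_assoc, ← ENNReal.ofReal_mul (by positivity)]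
    congr 2
    rw [one_pow, one_mul, ← nv_sq]
    field_simp
  · exact (W_meas.comp Pool.Agent.TH277.CS.s2_meas).ennreal_ofReal.mul (hG.comp u_meas)

/-- variation of a product with a monotone function -/
lemma var_mul {κ : ℝ → ℝ} {g : ℝ → ℂ} {K : ℝ} {B : ℝ≥0∞} {s : Set ℝ} {a b : ℝ}
    (hs : s = Icc a b) (hab : a ≤ b)
    (hκ : MonotoneOn κ s) (h0 : ∀ x ∈ s, 0 ≤ κ x) (hK : ∀ x ∈ s, κ x ≤ K)
    (hB : ∀ x ∈ s, ‖g x‖ₑ ≤ B) :
    eVariationOn (fun x => (κ x : ℂ) * g x) s ≤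
      ENNReal.ofReal K * eVariationOn g s + ENNReal.ofReal K * B := by
  have ha : a ∈ s := by rw [hs]; exact left_mem_Icc.2 hab
  have hb : b ∈ s := by rw [hs]; exact right_mem_Icc.2 hab
  have hvκ : eVariationOn κ s ≤ ENNReal.ofReal K := by
    have h1 := hκ.eVariationOn_eq ha hb
    have h2 : s ∩ Icc a b = s := by rw [hs, inter_self]
    rw [h2] at h1
    rw [h1]
    refine ENNReal.ofReal_le_ofReal ?_
    linarith [h0 a ha, hK b hb]
  unfold eVariationOn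
  apply iSup_le
  rintro ⟨n, ⟨w, hw, hws⟩⟩
  have h3 : ∀ i ∈ Finset.range n, edist ((κ (w (i + 1)) : ℂ) * g (w (i + 1)))
      ((κ (w i) : ℂ) * g (w i)) ≤
      ENNReal.ofReal K * edist (g (w (i + 1))) (g (w i)) +
        edist (κ (w (i + 1))) (κ (w i)) * B := by
    intro i _
    have e1 : (κ (w (i + 1)) : ℂ) * g (w (i + 1)) - (κ (w i) : ℂ) * g (w i) =
        (κ (w (i + 1)) : ℂ) * (g (w (i + 1)) - g (w i)) +
          ((κ (w (i + 1)) : ℂ) - (κ (w i) : ℂ)) * g (w i) := by ring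
    rw [edist_eq_enorm_sub, e1, edist_eq_enorm_sub, edist_eq_enorm_sub]
    refine (enorm_add_le _ _).trans ?_
    rw [enorm_mul, enorm_mul]
    apply add_le_add
    · apply mul_le_mul' _ le_rfl
      rw [← ofReal_norm, Complex.norm_real, Real.norm_eq_abs, abs_of_nonneg (h0 _ (hws _))]
      exact ENNReal.ofReal_le_ofReal (hK _ (hws _))
    · apply mul_le_mul' _ (hB _ (hws _))
      rw [← Complex.ofReal_sub, ← ofReal_norm, ← ofReal_norm, Complex.norm_real]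
  refine (Finset.sum_le_sum h3).trans ?_
  rw [Finset.sum_add_distrib, ← Finset.mul_sum, ← Finset.sum_mul]
  apply add_le_add
  · apply mul_le_mul' le_rfl
    exact eVariationOn.sum_le hw hws
  · apply mul_le_mul' _ le_rfl
    exact (eVariationOn.sum_le hw hws).trans hvκ

end Pool.Agent.TH407.MV
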