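import Mathlib
import Pool.Agent.TH407.MV.S1
set_option autoImplicit false

/-! The northern cap: the estimate for densities of bounded variation along the meridians. -/

namespace Pool.Agent.TH407.MV

open MeasureTheory Set Complex Metric
open scoped ENNReal NNReal Real RealInnerProductSpace
open Pool.Agent.TH277.CS (E3 sigma HP HP_meas D0 D0_meas u u_meas u_0 u_1 u_2 W W_pos W_nonneg
  W_meas int_sphere lint_sphere L L_le)

/-- the radial projection to the sphere (`p` at the origin) -/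
noncomputable def nrm (p : sphere (0 : E3) 1) (y : E3) : sphere (0 : E3) 1 :=
  if h : y = 0 then p else ⟨‖y‖⁻¹ • y, by
    rw [mem_sphere_zero_iff_norm, norm_smul, norm_inv, norm_norm,
      inv_mul_cancel₀ (norm_ne_zero_iff.2 h)]⟩

/-- the point with parameter `s` of the arc from `p` (`s = 0`) to `x` (`s = 1`): the projection to
the sphere of `(1 - s) ⟪p, x⟫ p + s x` -/
noncomputable def mer (p x : sphere (0 : E3) 1) (s : ℝ) : sphere (0 : E3) 1 :=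
  nrm p (((1 - s) * ⟪(p : E3), (x : E3)⟫) • (p : E3) + s • (x : E3))

/-- the north pole -/
noncomputable def e3p : sphere (0 : E3) 1 :=
  ⟨EuclideanSpace.single 2 1, by simp⟩

lemma e3p_inner (x : E3) : (⟪(e3p : E3), x⟫ : ℝ) = x 2 := by
  unfold e3p
  simp [EuclideanSpace.inner_single_left]

lemma mer_sph (v : ℝ × ℝ) (s : ℝ) : mer e3p (sph v) s = sph (s • v) := by
  unfold mer
  set y : E3 := ((1 - s) * ⟪(e3p : E3), (sph v : E3)⟫) • (e3p : E3) + s • (sph v : E3) with hy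
  have hn := nv_pos v
  have hn2 := nv_pos (s • v)
  have y0 : y 0 = (nv v)⁻¹ * (s * v.1) := by
    rw [hy, e3p_inner]
    simp only [PiLp.add_apply, PiLp.smul_apply, smul_eq_mul, sph_0, sph_2, e3p]
    simp
    ring
  have y1 : y 1 = (nv v)⁻¹ * (s * v.2) := by
    rw [hy, e3p_inner]
    simp only [PiLp.add_apply, PiLp.smul_apply, smul_eq_mul, sph_1, sph_2, e3p]
    simp
    ring
  have y2 : y 2 = (nv v)⁻¹ := by
    rw [hy, e3p_inner]
    simp only [PiLp.add_apply, PiLp.smul_apply, smul_eq_mul, sph_2, e3p]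
    simp
    ring
  have hny : ‖y‖ = (nv v)⁻¹ * nv (s • v) := by
    rw [EuclideanSpace.norm_eq, Fin.sum_univ_three]
    simp only [Real.norm_eq_abs, sq_abs, y0, y1, y2]
    have e : ((nv v)⁻¹ * (s * v.1)) ^ 2 + ((nv v)⁻¹ * (s * v.2)) ^ 2 + (nv v)⁻¹ ^ 2 =
        ((nv v)⁻¹ * nv (s • v)) ^ 2 := by
      rw [mul_pow _ (nv (s • v)), nv_sq]
      unfold AR.sq
      simp only [Prod.smul_fst, Prod.smul_snd, smul_eq_mul]
      ring
    rw [e, Real.sqrt_sq (by positivity)]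
  have hy0 : y ≠ 0 := by
    intro h
    rw [h, norm_zero] at hny
    have : 0 < (nv v)⁻¹ * nv (s • v) := by positivity
    linarith
  unfold nrm
  rw [dif_neg hy0]
  apply Subtype.ext
  show ‖y‖⁻¹ • y = (sph (s • v) : E3)
  ext i
  fin_cases i
  · show ‖y‖⁻¹ * y 0 = (sph (s • v) : E3) 0
    rw [y0, hny, sph_0]
    simp only [Prod.smul_fst, smul_eq_mul]
    field_simp
  · show ‖y‖⁻¹ * y 1 = (sph (s • v) : E3) 1
    rw [y1, hny, sph_1]
    simp only [Prod.smul_snd, smul_eq_mul]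
    field_simp
  · show ‖y‖⁻¹ * y 2 = (sph (s • v) : E3) 2
    rw [y2, hny, sph_2]
    field_simp

lemma var_pt {f : sphere (0 : E3) 1 → ℂ} {M : sphere (0 : E3) 1 → ℝ≥0∞}
    (hV : ∀ x : sphere (0 : E3) 1, 0 < (x : E3) 2 →
      ‖f x‖ₑ + eVariationOn (fun s => f (mer e3p x s)) (Icc (1 / 4) 1) ≤ M x)
    {A0 : ℝ} {x : ℝ × ℝ} (hx : AR.sq x ≤ 4) :
    ‖FG f (A0 • x)‖ₑ + eVariationOn (fun s : ℝ => FG f (A0 • (s • x))) (Icc (1 / 4) 1) ≤
      ENNReal.ofReal (2 * √(1 + 4 * A0 ^ 2)) * M (sph (A0 • x)) := by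
  set y := sph (A0 • x) with hy
  set K := √(1 + 4 * A0 ^ 2) with hK
  have hK0 : 0 < K := Real.sqrt_pos.2 (by positivity)
  have hy2 : 0 < (y : E3) 2 := by
    rw [hy, sph_2]
    exact inv_pos.2 (nv_pos _)
  set V := eVariationOn (fun s => f (mer e3p y s)) (Icc (1 / 4) 1) with hVdef
  have hM := hV y hy2
  have e1 : (fun s : ℝ => FG f (A0 • (s • x))) =
      fun s : ℝ => ((nv (s • (A0 • x)) : ℝ) : ℂ) * f (mer e3p y s) := by
    ext s
    unfold FG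
    rw [hy, mer_sph, smul_comm]
  have hsq : 0 ≤ AR.sq x := sq_nonneg' x
  have hnvle : ∀ s ∈ Icc (1 / 4 : ℝ) 1, nv (s • (A0 • x)) ≤ K := by
    intro s hs
    unfold nv
    rw [hK]
    apply Real.sqrt_le_sqrt
    rw [AR.sq_smul, AR.sq_smul]
    have h1 : s ^ 2 ≤ 1 := by nlinarith [hs.1, hs.2]
    have h2 : A0 ^ 2 * AR.sq x ≤ A0 ^ 2 * 4 := mul_le_mul_of_nonneg_left hx (sq_nonneg _)
    have h3 : 0 ≤ A0 ^ 2 * AR.sq x := by positivity
    nlinarith
  have hmono : MonotoneOn (fun s : ℝ => nv (s • (A0 • x))) (Icc (1 / 4 : ℝ) 1) := by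
    intro a ha b hb hab
    simp only
    unfold nv
    apply Real.sqrt_le_sqrt
    rw [AR.sq_smul, AR.sq_smul b]
    have h1 : a ^ 2 ≤ b ^ 2 := by
      have := ha.1
      nlinarith
    have h3 : 0 ≤ AR.sq (A0 • x) := sq_nonneg' _
    nlinarith
  have hmer1 : mer e3p y 1 = y := by
    rw [hy, mer_sph, one_smul]
  have h1mem : (1 : ℝ) ∈ Icc (1 / 4 : ℝ) 1 := by constructor <;> norm_num
  have hB : ∀ s ∈ Icc (1 / 4 : ℝ) 1, ‖f (mer e3p y s)‖ₑ ≤ ‖f y‖ₑ + V := by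
    intro s hs
    have h2 := eVariationOn.edist_le (fun s => f (mer e3p y s)) hs h1mem
    simp only [hmer1] at h2
    rw [edist_eq_enorm_sub] at h2
    calc ‖f (mer e3p y s)‖ₑ = ‖f y + (f (mer e3p y s) - f y)‖ₑ := by congr 1; ring
      _ ≤ ‖f y‖ₑ + ‖f (mer e3p y s) - f y‖ₑ := enorm_add_le _ _
      _ ≤ _ := add_le_add le_rfl h2
  have h3 := var_mul (s := Icc (1 / 4 : ℝ) 1) (a := 1 / 4) (b := 1) rfl (by norm_num) hmono
    (fun s _ => (nv_pos _).le) hnvle hB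
  have h4 : ‖FG f (A0 • x)‖ₑ ≤ ENNReal.ofReal K * ‖f y‖ₑ := by
    unfold FG
    rw [enorm_mul, ← hy, ← ofReal_norm ((nv (A0 • x) : ℝ) : ℂ), Complex.norm_real,
      Real.norm_of_nonneg (nv_pos _).le]
    apply mul_le_mul' _ le_rfl
    apply ENNReal.ofReal_le_ofReal
    have := hnvle 1 h1mem
    rwa [one_smul] at this
  rw [e1]
  calc _ ≤ ENNReal.ofReal K * ‖f y‖ₑ + (ENNReal.ofReal K * V +
        ENNReal.ofReal K * (‖f y‖ₑ + V)) := add_le_add h4 h3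
    _ = ENNReal.ofReal (2 * K) * (‖f y‖ₑ + V) := by
        rw [ENNReal.ofReal_mul (by norm_num), ENNReal.ofReal_ofNat]
        ring
    _ ≤ _ := mul_le_mul' le_rfl hM

lemma lint_M {M : sphere (0 : E3) 1 → ℝ≥0∞} (hM : Measurable M) {A0 q : ℝ} (hA : 0 < A0)
    (hq : 0 < q) :
    ∫⁻ x : ℝ × ℝ, ({x : ℝ × ℝ | AR.sq x ≤ 4}.indicator (fun x => M (sph (A0 • x))) x) ^ q ≤
      ENNReal.ofReal ((A0 ^ 2)⁻¹ * √(1 + 4 * A0 ^ 2) ^ 3) * ∫⁻ x, M x ^ q ∂sigma := by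
  set K := √(1 + 4 * A0 ^ 2) with hK
  have hK0 : 0 < K := Real.sqrt_pos.2 (by positivity)
  set G : ℝ × ℝ → ℝ≥0∞ := fun v =>
    ENNReal.ofReal (K ^ 3) * (ENNReal.ofReal ((nv v ^ 3)⁻¹) * M (sph v) ^ q) with hG
  have h1 : ∀ x : ℝ × ℝ, ({x : ℝ × ℝ | AR.sq x ≤ 4}.indicator
      (fun x => M (sph (A0 • x))) x) ^ q ≤ G (A0 • (x + 0)) := by
    intro x
    rw [add_zero]
    by_cases hx : AR.sq x ≤ 4
    · rw [indicator_of_mem (show x ∈ {x : ℝ × ℝ | AR.sq x ≤ 4} from hx)]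
      simp only [hG]
      rw [← mul_assoc, ← ENNReal.ofReal_mul (by positivity)]
      have h2 : nv (A0 • x) ≤ K := by
        unfold nv
        rw [hK]
        apply Real.sqrt_le_sqrt
        rw [AR.sq_smul]
        have h2 : A0 ^ 2 * AR.sq x ≤ A0 ^ 2 * 4 := mul_le_mul_of_nonneg_left hx (sq_nonneg _)
        linarith
      have hn := nv_pos (A0 • x)
      have h3 : 1 ≤ K ^ 3 * (nv (A0 • x) ^ 3)⁻¹ := by
        rw [← div_eq_mul_inv, one_le_div (by positivity)]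
        exact pow_le_pow_left₀ hn.le h2 3
      calc M (sph (A0 • x)) ^ q = 1 * M (sph (A0 • x)) ^ q := (one_mul _).symm
        _ ≤ _ := by
          apply mul_le_mul' _ le_rfl
          rw [← ENNReal.ofReal_one]
          exact ENNReal.ofReal_le_ofReal h3
    · rw [indicator_of_notMem (show x ∉ {x : ℝ × ℝ | AR.sq x ≤ 4} from hx),
        ENNReal.zero_rpow_of_pos hq]
      exact zero_le
  refine (lintegral_mono h1).trans ?_
  rw [AR.lint_aff G 0 A0 hA]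
  simp only [hG]
  rw [lintegral_const_mul' _ _ ENNReal.ofReal_ne_top, ← lint_sph _ (hM.pow_const q), ← mul_assoc,
    ← ENNReal.ofReal_mul (by positivity)]
  apply mul_le_mul' le_rfl
  exact setLIntegral_le_lintegral _ _

/-- the northern cap -/
theorem cap3 (hS : ShellG) (q δ : ℝ) (hq : 3 < q) (hδ : 0 < δ) (hδ1 : δ < 1) : ∃ C : ℝ≥0,
    ∀ (f : sphere (0 : E3) 1 → ℂ) (M : sphere (0 : E3) 1 → ℝ≥0∞), Measurable f → Measurable M →
    (∀ x : sphere (0 : E3) 1, (x : E3) 2 < δ → f x = 0) →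
    (∀ x : sphere (0 : E3) 1, 0 < (x : E3) 2 →
      ‖f x‖ₑ + eVariationOn (fun s => f (mer e3p x s)) (Icc (1 / 4) 1) ≤ M x) →
    ∫⁻ ξ : E3, ‖Pool.Agent.TH277.CS.ft f ξ‖ₑ ^ q ≤ C * ∫⁻ x, M x ^ q ∂sigma := by
  set A0 : ℝ := √(1 / δ ^ 2 - 1) with hA0
  have hd1 : 1 < 1 / δ ^ 2 := by
    rw [lt_div_iff₀ (by positivity)]
    nlinarith
  have hA : 0 < A0 := Real.sqrt_pos.2 (by linarith)
  have hA2 : A0 ^ 2 = 1 / δ ^ 2 - 1 := Real.sq_sqrt (by linarith)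
  obtain ⟨C1, h1⟩ := mainG hS A0 q hA.le hq
  have hq0 : 0 < q := by linarith
  set K := √(1 + 4 * A0 ^ 2) with hK
  set CC : ℝ≥0∞ := ENNReal.ofReal (A0 ^ (2 * q - 4)) * (C1 * (ENNReal.ofReal (2 * K) ^ q *
    ENNReal.ofReal ((A0 ^ 2)⁻¹ * K ^ 3))) with hCC
  have hCf : CC ≠ ∞ := by
    rw [hCC]
    refine ENNReal.mul_ne_top ENNReal.ofReal_ne_top (ENNReal.mul_ne_top ENNReal.coe_ne_top
      (ENNReal.mul_ne_top ?_ ENNReal.ofReal_ne_top))
    exact ENNReal.rpow_ne_top_of_nonneg hq0.le ENNReal.ofReal_ne_top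
  refine ⟨CC.toNNReal, ?_⟩
  intro f M hf hM h0 hV
  rw [ENNReal.coe_toNNReal hCf]
  have h0' : ∀ x, x ∉ HP → f x = 0 := by
    intro x hx
    apply h0
    have : ¬ 0 < (x : E3) 2 := hx
    linarith
  set Φ : (ℝ × ℝ) × ℝ → ℝ≥0∞ := fun p => ‖EG 1 (FG f) p.1 p.2‖ₑ ^ q with hΦ
  have hΦm : Measurable Φ := (EG_meas 1 (FG_meas hf)).enorm.pow_const q
  have h2 : ∫⁻ ξ : E3, ‖Pool.Agent.TH277.CS.ft f ξ‖ₑ ^ q = ∫⁻ ξ : E3, Φ (L ξ) := by
    apply lintegral_congr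
    intro ξ
    rw [ft_EG hf h0' ξ]
  rw [h2]
  refine (L_le Φ hΦm).trans ?_
  simp only [hΦ]
  rw [EG_aff_int 1 (FG f) (FG_meas hf) A0 hA q hq0.le, one_mul]
  have hFm : Measurable (fun y : ℝ × ℝ => FG f (A0 • y)) :=
    (FG_meas hf).comp (measurable_const_smul A0)
  set S4 : Set (ℝ × ℝ) := {x : ℝ × ℝ | AR.sq x ≤ 4} with hS4
  have hS4m : MeasurableSet S4 := measurableSet_le AR.sq_meas measurable_const
  set M0 : ℝ × ℝ → ℝ≥0∞ := S4.indicator (fun x => M (sph (A0 • x))) with hM0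
  have hM0m : Measurable M0 :=
    (hM.comp (sph_meas.comp (measurable_const_smul A0))).indicator hS4m
  have h3 := h1 (fun y : ℝ × ℝ => FG f (A0 • y)) (fun x => ENNReal.ofReal (2 * K) * M0 x) hFm
    (hM0m.const_mul _) ?_ ?_
  · have h4 := lint_M hM hA hq0
    have h5 : ∫⁻ x : ℝ × ℝ, (ENNReal.ofReal (2 * K) * M0 x) ^ q =
        ENNReal.ofReal (2 * K) ^ q * ∫⁻ x : ℝ × ℝ, M0 x ^ q := by
      rw [← lintegral_const_mul' _ _
        (ENNReal.rpow_ne_top_of_nonneg hq0.le ENNReal.ofReal_ne_top)]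
      apply lintegral_congr
      intro x
      rw [ENNReal.mul_rpow_of_nonneg _ _ hq0.le]
    rw [h5] at h3
    calc _ ≤ ENNReal.ofReal (A0 ^ (2 * q - 4)) * (C1 * (ENNReal.ofReal (2 * K) ^ q *
          (ENNReal.ofReal ((A0 ^ 2)⁻¹ * K ^ 3) * ∫⁻ x, M x ^ q ∂sigma))) := by
          apply mul_le_mul' le_rfl
          refine h3.trans ?_
          apply mul_le_mul' le_rfl
          apply mul_le_mul' le_rfl
          exact h4
      _ = _ := by
          rw [hCC]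
          ring
  · intro x hx
    show FG f (A0 • x) = 0
    unfold FG
    rw [h0, mul_zero]
    rw [sph_2]
    rw [inv_lt_comm₀ (nv_pos _) hδ]
    have h4 : (δ⁻¹) ^ 2 < nv (A0 • x) ^ 2 := by
      rw [nv_sq, AR.sq_smul, hA2, inv_pow, ← one_div]
      have h5 : 0 < 1 / δ ^ 2 - 1 := by linarith
      nlinarith
    exact lt_of_pow_lt_pow_left₀ 2 (nv_pos _).le h4
  · intro x hx
    simp only [hM0]
    rw [indicator_of_mem (show x ∈ S4 from hx)]
    exact var_pt hV hx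

end Pool.Agent.TH407.MV
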