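import Mathlib
import Pool.Agent.TH407.MV.S2
import Pool.Agent.H789R2.FR.Sph
set_option autoImplicit false

/-! Rotation to a general pole. -/

namespace Pool.Agent.TH407.MV

open MeasureTheory Set Complex Metric
open scoped ENNReal NNReal Real RealInnerProductSpace
open Pool.Agent.TH277.CS (E3 sigma)
open Pool.Agent.H789R2.FR (sg sg_inv sg_apply)

/-- an isometry, on the sphere -/
noncomputable def rs (R : E3 ≃ₗᵢ[ℝ] E3) (x : sphere (0 : E3) 1) : sphere (0 : E3) 1 :=
  ⟨R x, by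
    rw [mem_sphere_zero_iff_norm, R.norm_map]
    exact mem_sphere_zero_iff_norm.1 x.2⟩

lemma rs_coe (R : E3 ≃ₗᵢ[ℝ] E3) (x : sphere (0 : E3) 1) : (rs R x : E3) = R x := rfl

lemma rs_meas (R : E3 ≃ₗᵢ[ℝ] E3) : Measurable (rs R) := by
  refine Measurable.subtype_mk ?_
  exact R.continuous.measurable.comp measurable_subtype_coe

lemma rs_mp (R : E3 ≃ₗᵢ[ℝ] E3) : MeasurePreserving (rs R) sigma sigma := by
  refine ⟨rs_meas R, ?_⟩
  ext N hN
  rw [Measure.map_apply (rs_meas R) hN]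
  have hemb : MeasurableEmbedding (Subtype.val : sphere (0 : E3) 1 → E3) :=
    MeasurableEmbedding.subtype_coe isClosed_sphere.measurableSet
  have hN' : MeasurableSet (Subtype.val '' N : Set E3) := hemb.measurableSet_image' hN
  have h1 : sigma N = sg 3 (Subtype.val '' N) := by
    rw [sg_apply hN', preimage_image_eq _ Subtype.val_injective]
    rfl
  have h2 := (sg_inv R).measure_preimage hN'.nullMeasurableSet
  rw [h1, ← h2, sg_apply (R.continuous.measurable hN')]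
  show sigma _ = sigma _
  congr 1
  ext x
  simp only [mem_preimage]
  rw [← rs_coe]
  constructor
  · intro hx
    exact ⟨_, hx, rfl⟩
  · rintro ⟨y, hy, hxy⟩
    rwa [← Subtype.val_injective hxy]

lemma rs_nrm (R : E3 ≃ₗᵢ[ℝ] E3) (p : sphere (0 : E3) 1) (y : E3) :
    rs R (nrm p y) = nrm (rs R p) (R y) := by
  unfold nrm
  by_cases h : y = 0
  · have h' : R y = 0 := by rw [h, map_zero]
    rw [dif_pos h, dif_pos h']
  · have h' : R y ≠ 0 := by
      intro h2
      exact h ((map_eq_zero_iff R R.injective).1 h2)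
    rw [dif_neg h, dif_neg h']
    apply Subtype.ext
    show R (‖y‖⁻¹ • y) = ‖R y‖⁻¹ • R y
    rw [map_smul, R.norm_map]

lemma rs_mer (R : E3 ≃ₗᵢ[ℝ] E3) (p x : sphere (0 : E3) 1) (s : ℝ) :
    rs R (mer p x s) = mer (rs R p) (rs R x) s := by
  unfold mer
  rw [rs_nrm, rs_coe, rs_coe, R.inner_map_map, map_add, map_smul, map_smul]

lemma exists_rot (p : sphere (0 : E3) 1) : ∃ R : E3 ≃ₗᵢ[ℝ] E3, rs R e3p = p := by
  have h1 : ‖(e3p : E3)‖ = ‖(p : E3)‖ := by
    rw [mem_sphere_zero_iff_norm.1 e3p.2, mem_sphere_zero_iff_norm.1 p.2]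
  refine ⟨(ℝ ∙ ((e3p : E3) - p))ᗮ.reflection, ?_⟩
  apply Subtype.ext
  exact Submodule.reflection_sub h1

lemma ft_rs (R : E3 ≃ₗᵢ[ℝ] E3) (f : sphere (0 : E3) 1 → ℂ) (hf : Measurable f) (η : E3) :
    Pool.Agent.TH277.CS.ft f (R η) = Pool.Agent.TH277.CS.ft (fun x => f (rs R x)) η := by
  unfold Pool.Agent.TH277.CS.ft
  have h1 : Measurable fun x : sphere (0 : E3) 1 =>
      cexp (-(2 * Real.pi * I * ((⟪(x : E3), R η⟫ : ℝ) : ℂ))) * f x := by
    have h1 : Measurable fun x : sphere (0 : E3) 1 => (⟪(x : E3), R η⟫ : ℝ) := by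
      have h2 : Measurable fun x : E3 => (⟪x, R η⟫ : ℝ) := by fun_prop
      exact h2.comp measurable_subtype_coe
    exact (Complex.measurable_exp.comp
      ((measurable_const.mul (Complex.measurable_ofReal.comp h1)).neg)).mul hf
  have h2 := rs_mp R
  rw [← h2.map_eq, integral_map h2.aemeasurable (by rw [h2.map_eq]; exact h1.aestronglyMeasurable)]
  rw [h2.map_eq]
  refine integral_congr_ae (ae_of_all _ fun x => ?_)
  simp only
  rw [rs_coe, R.inner_map_map]

/-- densities of bounded variation along the meridians of a general pole -/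
theorem capP (hS : ShellG) (q δ : ℝ) (hq : 3 < q) (hδ : 0 < δ) : ∃ C : ℝ≥0,
    ∀ (p : sphere (0 : E3) 1)
    (f : sphere (0 : E3) 1 → ℂ) (M : sphere (0 : E3) 1 → ℝ≥0∞), Measurable f → Measurable M →
    (∀ x : sphere (0 : E3) 1, ⟪(p : E3), (x : E3)⟫ < δ → f x = 0) →
    (∀ x : sphere (0 : E3) 1, 0 < ⟪(p : E3), (x : E3)⟫ →
      ‖f x‖ₑ + eVariationOn (fun s => f (mer p x s)) (Icc (1 / 4) 1) ≤ M x) →
    ∫⁻ ξ : E3, ‖Pool.Agent.TH277.CS.ft f ξ‖ₑ ^ q ≤ C * ∫⁻ x, M x ^ q ∂sigma := by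
  obtain ⟨C, hC⟩ := cap3 hS q (min δ (1 / 2)) hq (by positivity)
    (lt_of_le_of_lt (min_le_right _ _) (by norm_num))
  refine ⟨C, ?_⟩
  intro p f M hf hM h0 hV
  obtain ⟨R, hR⟩ := exists_rot p
  have hin : ∀ x : sphere (0 : E3) 1, (⟪(p : E3), (rs R x : E3)⟫ : ℝ) = (x : E3) 2 := by
    intro x
    rw [← hR, rs_coe, rs_coe, R.inner_map_map, e3p_inner]
  have h1 := hC (fun x => f (rs R x)) (fun x => M (rs R x)) (hf.comp (rs_meas R))
    (hM.comp (rs_meas R)) ?_ ?_
  · have hRmp : MeasurePreserving R.toHomeomorph.toMeasurableEquiv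
      (volume : Measure E3) volume := R.measurePreserving
    have h2 : ∫⁻ ξ : E3, ‖Pool.Agent.TH277.CS.ft f ξ‖ₑ ^ q =
        ∫⁻ η : E3, ‖Pool.Agent.TH277.CS.ft (fun x => f (rs R x)) η‖ₑ ^ q := by
      rw [← hRmp.lintegral_comp_emb R.toHomeomorph.toMeasurableEquiv.measurableEmbedding]
      apply lintegral_congr
      intro η
      show ‖Pool.Agent.TH277.CS.ft f (R η)‖ₑ ^ q = _
      rw [ft_rs R f hf η]
    rw [h2]
    refine h1.trans (le_of_eq ?_)
    rw [(rs_mp R).lintegral_comp (hM.pow_const q)]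
  · intro x hx
    apply h0
    rw [hin x]
    exact lt_of_lt_of_le hx (min_le_left _ _)
  · intro x hx
    have h3 := hV (rs R x) (by rw [hin x]; exact hx)
    have h4 : (fun s => f (rs R (mer e3p x s))) = fun s => f (mer p (rs R x) s) := by
      ext s
      rw [rs_mer, hR]
    rw [h4]
    exact h3

end Pool.Agent.TH407.MV
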