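import Mathlib
import Pool.Agent.TH606.MV.SumL
import Pool.Agent.TH883.MV.LocK
import Pool.Agent.TH857.MV.MainL4
import Pool.Agent.TH367.MV.Stat
import Pool.Agent.TH999.MV.NonStat
import Pool.Agent.TH999.MV.FaPB
import Pool.Agent.TH993.MV.Schur
import Pool.Agent.TH368.MV.LocL4
import Pool.Agent.TH822.MV.Comp
import Pool.Agent.TH55.MV.TailL4
import Pool.Agent.TH126.MV.Repr
import Pool.Agent.TH541.MV.AllP
import Pool.Agent.TH620.MV.Low
import Pool.Agent.TH921.MV.Restr
import Pool.Agent.TH656.MV.Strong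
import Pool.Agent.TH761.MV.Shell
import Pool.Agent.TH777.VR.FF
import Pool.Agent.TH634.VR.I
import Pool.Agent.TH634.VR.K
import Pool.Agent.TH407.MV.S3
set_option autoImplicit false

/-! The chain of all intermediate results. -/

namespace Pool.Agent.TH407.MV

open MeasureTheory Set Complex Metric
open scoped ENNReal NNReal Real RealInnerProductSpace
open Pool.Agent.TH277.CS (E3 sigma)

/-- the shell estimate -/
theorem shellP : ShellP := by
  have h3 := Pool.Agent.TH883.MV.locK_of Pool.Agent.TH999.MV.nonstat Pool.Agent.TH606.MV.sum_lem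
  have h5 := Pool.Agent.TH368.MV.locL4_of h3 Pool.Agent.TH993.MV.schur
  have h6 := Pool.Agent.TH822.MV.compL4_of h5
  have h7 := Pool.Agent.TH857.MV7.mainL4_of h6
  have h12 := Pool.Agent.TH541.MV.allP_of h7 Pool.Agent.TH367.MV.stat Pool.Agent.TH55.MV.tailL4
    Pool.Agent.TH126.MV.repr Pool.Agent.TH999.MV.faP
  have h13 := Pool.Agent.TH620.MV.lowP_of h12 Pool.Agent.TH777.VR.fourier_facts
  have h14 := Pool.Agent.TH921.MV.restrP_of Pool.Agent.TH777.VR.fourier_facts h13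
    Pool.Agent.TH999.MV.faP
  have h15 := Pool.Agent.TH656.MVx.strongP_of h14 Pool.Agent.TH634.VR.sum_lemma
  exact Pool.Agent.TH761.MV.shellP_of h15 Pool.Agent.TH634.VR.var_mod

/-- densities of bounded variation along the meridians of a general pole -/
theorem cap (q δ : ℝ) (hq : 3 < q) (hδ : 0 < δ) : ∃ C : ℝ≥0,
    ∀ (p : sphere (0 : E3) 1)
    (f : sphere (0 : E3) 1 → ℂ) (M : sphere (0 : E3) 1 → ℝ≥0∞), Measurable f → Measurable M →
    (∀ x : sphere (0 : E3) 1, ⟪(p : E3), (x : E3)⟫ < δ → f x = 0) →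
    (∀ x : sphere (0 : E3) 1, 0 < ⟪(p : E3), (x : E3)⟫ →
      ‖f x‖ₑ + eVariationOn (fun s => f (mer p x s)) (Icc (1 / 4) 1) ≤ M x) →
    ∫⁻ ξ : E3, ‖Pool.Agent.TH277.CS.ft f ξ‖ₑ ^ q ≤ C * ∫⁻ x, M x ^ q ∂sigma :=
  capP (shellG_of shellP) q δ hq hδ

end Pool.Agent.TH407.MV
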